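import Pool.Agent.TH463.UP.Point
import Pool.Agent.H769R3.Final4524

/-!
Neighbourhoods of points of small order; from Fourier coefficients to equidistribution.
-/

set_option autoImplicit false

open Finset Filter Topology MeasureTheory
open scoped ENNReal

namespace Pool.Agent.TH463.UQ

open Pool.Agent.H769R3 (X integral_fourier_volume fourier_int_neg tendsto_of_fourier)
open Pool.Agent.TH463.UP (Near Tor tor_finite)

lemma tor_null {ν : Measure X} (hat : ∀ x, ν {x} = 0) (Q : ℕ) : ν (Tor Q) = 0 := by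
  have h := (tor_finite Q).countable
  rw [← Set.biUnion_of_singleton (Tor Q), measure_biUnion_null_iff h]
  exact fun x _ => hat x

lemma near_tendsto {ν : Measure X} [IsFiniteMeasure ν] (hat : ∀ x, ν {x} = 0) (Q : ℕ) :
    Tendsto (fun N : ℕ => ν.real (Near Q N)) atTop (𝓝 0) := by
  have h1 := tendsto_measure_cthickening_of_isCompact (μ := ν) (tor_finite Q).isCompact
  rw [tor_null hat] at h1
  have h2 : Tendsto (fun N : ℕ => 1 / ((N : ℝ) + 1)) atTop (𝓝 0) :=
    tendsto_one_div_add_atTop_nhds_zero_nat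
  have h3 := h1.comp h2
  have h4 := (ENNReal.tendsto_toReal ENNReal.zero_ne_top).comp h3
  exact h4

/-- from Fourier coefficients to equidistribution -/
theorem equi {l : Filter ℕ} {μ : Measure X} [IsProbabilityMeasure μ]
    (hpos : ∀ a : ℕ, Tendsto (fun c : ℕ => ∫ x, (fourier (((a + 1) * c : ℕ) : ℤ) x : ℂ) ∂μ) l (𝓝 0))
    (f : C(X, ℝ)) : Tendsto (fun c : ℕ => ∫ x, f (c • x) ∂μ) l (𝓝 (∫ x, f x)) := by
  set ν : ℕ → Measure X := fun n => μ.map (fun x : X => n • x) with hν
  have hmeas : ∀ n : ℕ, Measurable (fun x : X => n • x) := fun n => by fun_prop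
  have hprob : ∀ n, IsProbabilityMeasure (ν n) := fun n =>
    Measure.isProbabilityMeasure_map (hmeas n).aemeasurable
  have hvol : IsProbabilityMeasure (volume : Measure X) := ⟨UnitAddCircle.measure_univ⟩
  have hfour : ∀ k : ℤ, Tendsto (fun n => ∫ x, (fourier k x : ℂ) ∂(ν n)) l
      (𝓝 (∫ x : X, (fourier k x : ℂ))) := by
    intro k
    have hint : ∀ n : ℕ, ∫ x, (fourier k x : ℂ) ∂(ν n) = ∫ x, (fourier (k * (n : ℤ)) x : ℂ) ∂μ := by
      intro n
      rw [hν]
      simp only
      rw [integral_map (hmeas n).aemeasurable (fourier k).continuous.aestronglyMeasurable]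
      apply integral_congr_ae
      refine Eventually.of_forall fun x => ?_
      simp only
      rw [fourier_apply, fourier_apply, mul_smul, natCast_zsmul]
    simp_rw [hint]
    rcases lt_trichotomy k 0 with hk | hk | hk
    · rw [integral_fourier_volume hk.ne]
      obtain ⟨k', hk'⟩ : ∃ k' : ℕ, k = -((k' + 1 : ℕ) : ℤ) := ⟨(-k).toNat - 1, by omega⟩
      have h1 : ∀ n : ℕ, ∫ x, (fourier (k * (n : ℤ)) x : ℂ) ∂μ =
          (starRingEnd ℂ) (∫ x, (fourier (((k' + 1) * n : ℕ) : ℤ) x : ℂ) ∂μ) := by
        intro n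
        rw [← fourier_int_neg]
        congr 1
        funext x
        congr 2
        rw [hk']
        push_cast
        ring
      simp_rw [h1]
      have h2 := (Complex.continuous_conj.tendsto 0).comp (hpos k')
      rw [map_zero] at h2
      exact h2
    · rw [hk]
      simp only [zero_mul, fourier_zero]
      simp only [integral_const, measureReal_def, measure_univ]
      exact tendsto_const_nhds
    · rw [integral_fourier_volume hk.ne']
      obtain ⟨k', hk'⟩ : ∃ k' : ℕ, k = ((k' + 1 : ℕ) : ℤ) := ⟨k.toNat - 1, by omega⟩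
      have h1 : ∀ n : ℕ, (k * (n : ℤ)) = (((k' + 1) * n : ℕ) : ℤ) := by
        intro n
        rw [hk']
        push_cast
        ring
      simp_rw [h1]
      exact hpos k'
  have hC := tendsto_of_fourier ν (volume : Measure X) hfour
    ⟨fun x => (f x : ℂ), Complex.continuous_ofReal.comp f.continuous⟩
  have hre := (Complex.continuous_re.tendsto _).comp hC
  have e1 : ∀ (ρ : Measure X), (∫ x, ((f x : ℝ) : ℂ) ∂ρ).re = ∫ x, f x ∂ρ := by
    intro ρ
    rw [integral_complex_ofReal, Complex.ofReal_re]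
  have e2 : (fun n : ℕ => ∫ x, f (n • x) ∂μ) = fun n => (∫ x, ((f x : ℝ) : ℂ) ∂(ν n)).re := by
    funext n
    rw [e1, hν]
    simp only
    rw [integral_map (hmeas n).aemeasurable f.continuous.aestronglyMeasurable]
  rw [e2, ← e1 volume]
  exact hre

/-- a measure whose images under infinitely many multiplications are itself and converge to
Lebesgue measure -/
lemma eq_volume {μ : Measure X} [IsProbabilityMeasure μ] {S : Set ℕ} (hS : S.Infinite)
    (hinv : ∀ c ∈ S, MeasurePreserving (fun x : X => c • x) μ μ)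
    (h : ∀ f : C(X, ℝ), Tendsto (fun c : ℕ => ∫ x, f (c • x) ∂μ) (atTop ⊓ 𝓟 S) (𝓝 (∫ x, f x))) :
    μ = volume := by
  have hvol : IsProbabilityMeasure (volume : Measure X) := ⟨UnitAddCircle.measure_univ⟩
  haveI : (atTop ⊓ 𝓟 S : Filter ℕ).NeBot := by
    rw [← Filter.frequently_mem_iff_neBot]
    exact Nat.frequently_atTop_iff_infinite.2 hS
  refine ext_of_forall_integral_eq_of_IsFiniteMeasure fun f => ?_
  have h1 := h f.toContinuousMap
  have h2 : Tendsto (fun c : ℕ => ∫ x, f.toContinuousMap (c • x) ∂μ) (atTop ⊓ 𝓟 S)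
      (𝓝 (∫ x, f x ∂μ)) := by
    refine (tendsto_const_nhds (x := ∫ x, f x ∂μ)).congr' ?_
    have h3 : ∀ᶠ c : ℕ in atTop ⊓ 𝓟 S, c ∈ S :=
      eventually_inf_principal.2 (Eventually.of_forall fun _ h => h)
    filter_upwards [h3] with c hc
    have h4 := (hinv c hc).map_eq
    conv_lhs => rw [← h4]
    rw [integral_map (hinv c hc).measurable.aemeasurable f.continuous.aestronglyMeasurable]
    rfl
  exact tendsto_nhds_unique h2 h1

end Pool.Agent.TH463.UQ
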