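import Pool.Agent.TH463.UQ.Coeff
import Pool.Agent.TH463.UQ.Equi

/-!
The universal set of frequencies for all atomless measures invariant under multiplication by `p`.
-/

set_option autoImplicit false

open Finset Filter Topology MeasureTheory
open scoped ENNReal

namespace Pool.Agent.TH463.UQ

open Pool.Agent.H769R3 (X rep)
open Pool.Agent.TH463.UP (D Near nx lt_nx)

/-- the indices: the base, the tolerance, the frequency, and the weight -/
abbrev Idx : Type := ℕ × ℕ × ℕ × ℕ × ℕ × List ℕ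

/-- the tolerance of an index -/
noncomputable def del (m : ℕ) : ℝ := 1 / ((m : ℝ) + 1)

lemma del_pos (m : ℕ) : 0 < del m := by unfold del; positivity

/-- the indices which carry normalised weights -/
def Valid (p k M : ℕ) (l : List ℕ) : Prop := 2 ≤ p ∧ Pos (wt p M l) ∧ Norm p k (wt p M l)

open Classical in
/-- the universal set -/
theorem exists_set {η : ℝ} (hη : 0 < η) : ∃ (C : Set ℕ) (β : Idx → ℕ),
    (∀ N : ℕ, (((range N).filter fun c => c ∉ C).card : ℝ) ≤ η * N) ∧
    ∀ (p m a k M : ℕ) (l : List ℕ), Valid p k M l →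
      Level p k (del m) (kap (del m) * del m) (β (p, m, a, k, M, l)) ∧
      ∀ c ∈ C, (a + 1) * c ∉ ES p k (wt p M l) (del m) (β (p, m, a, k, M, l)) := by
  have hkey : ∀ i : Idx, ∃ β₀ : ℕ, Valid i.1 i.2.2.2.1 i.2.2.2.2.1 i.2.2.2.2.2 →
      Level i.1 i.2.2.2.1 (del i.2.1) (kap (del i.2.1) * del i.2.1) β₀ ∧
      ∀ N : ℕ, (((range N).filter (fun h => h ∈ Exc i.1 i.2.2.2.1 (wt i.1 i.2.2.2.2.1 i.2.2.2.2.2)
        (del i.2.1) β₀ N)).card : ℝ) ≤
        (η * (1 / 2) ^ (Encodable.encode i + 1) / (4 * ((i.2.2.1 : ℝ) + 1))) * N := by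
    intro i
    by_cases hv : Valid i.1 i.2.2.2.1 i.2.2.2.2.1 i.2.2.2.2.2
    · obtain ⟨β₀, h1, h2⟩ := exc_bound hv.1 hv.2.2 (del_pos i.2.1)
        (mul_pos (kap_pos (del_pos i.2.1)) (del_pos i.2.1))
        (show 0 < η * (1 / 2) ^ (Encodable.encode i + 1) / (4 * ((i.2.2.1 : ℝ) + 1)) by positivity)
      exact ⟨β₀, fun _ => ⟨h1, h2⟩⟩
    · exact ⟨0, fun h => absurd h hv⟩
  choose b hb using hkey
  set P : Idx → ℕ → Prop := fun i c => Valid i.1 i.2.2.2.1 i.2.2.2.2.1 i.2.2.2.2.2 ∧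
    (i.2.2.1 + 1) * c ∈ ES i.1 i.2.2.2.1 (wt i.1 i.2.2.2.2.1 i.2.2.2.2.2) (del i.2.1) (b i) with hP
  refine ⟨{c | ∀ i, ¬ P i c}, b, ?_, ?_⟩
  · intro N
    set Bad := (range N).filter fun c => c ∉ {c | ∀ i, ¬ P i c} with hBad
    have hex : ∀ c ∈ Bad, ∃ i, P i c := by
      intro c hc
      have h1 := (mem_filter.1 hc).2
      simp only [Set.mem_setOf_eq, not_forall, not_not] at h1
      exact h1
    choose! ι hι using hex
    set J : Finset Idx := Bad.image ι with hJ
    have hsub : Bad ⊆ J.biUnion fun i => (range N).filter fun c => P i c := by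
      intro c hc
      exact mem_biUnion.2 ⟨ι c, mem_image_of_mem ι hc, mem_filter.2 ⟨(mem_filter.1 hc).1, hι c hc⟩⟩
    have h1 : (Bad.card : ℝ) ≤ ∑ i ∈ J, (((range N).filter fun c => P i c).card : ℝ) := by
      exact_mod_cast (card_le_card hsub).trans card_biUnion_le
    have h2 : ∀ i ∈ J, (((range N).filter fun c => P i c).card : ℝ) ≤
        (η * N) * (1 / 2) ^ (Encodable.encode i + 1) := by
      intro i _
      by_cases hv : Valid i.1 i.2.2.2.1 i.2.2.2.2.1 i.2.2.2.2.2
      · have h3 := es_bound (N := (i.2.2.1 + 1) * N)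
          (η := η * (1 / 2) ^ (Encodable.encode i + 1) / (4 * ((i.2.2.1 : ℝ) + 1))) (by positivity)
          (hb i hv).2
        have h4 : ((range N).filter fun c => P i c).card ≤ ((range ((i.2.2.1 + 1) * N)).filter
            (fun h => h ∈ ES i.1 i.2.2.2.1 (wt i.1 i.2.2.2.2.1 i.2.2.2.2.2) (del i.2.1) (b i))).card := by
          apply card_le_card_of_injOn (fun c => (i.2.2.1 + 1) * c)
          · intro c hc
            rw [mem_coe, mem_filter, mem_range] at hc ⊢
            exact ⟨Nat.mul_lt_mul_of_pos_left hc.1 (Nat.succ_pos _), hc.2.2⟩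
          · intro c _ c' _ h
            exact Nat.eq_of_mul_eq_mul_left (Nat.succ_pos _) h
        have h5 : (((range N).filter fun c => P i c).card : ℝ) ≤
            (((range ((i.2.2.1 + 1) * N)).filter (fun h => h ∈ ES i.1 i.2.2.2.1
              (wt i.1 i.2.2.2.2.1 i.2.2.2.2.2) (del i.2.1) (b i))).card : ℝ) := by
          exact_mod_cast h4
        refine h5.trans (h3.trans (le_of_eq ?_))
        push_cast
        field_simp
      · have : (range N).filter (fun c => P i c) = ∅ := by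
          rw [filter_eq_empty_iff]
          intro c _ hc
          exact hv hc.1
        rw [this]
        simp only [card_empty, Nat.cast_zero]
        positivity
    refine h1.trans ((sum_le_sum h2).trans ?_)
    rw [← mul_sum]
    have h6 : ∑ i ∈ J, (1 / 2 : ℝ) ^ (Encodable.encode i + 1) ≤ 1 := by
      have e1 : ∑ i ∈ J, (1 / 2 : ℝ) ^ (Encodable.encode i + 1) =
          ∑ n ∈ J.image Encodable.encode, (1 / 2 : ℝ) ^ (n + 1) := by
        rw [sum_image (Encodable.encode_injective.injOn)]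
      have e2 : J.image Encodable.encode ⊆ range ((J.image Encodable.encode).sup id + 1) := by
        intro n hn
        rw [mem_range]
        exact Nat.lt_succ_of_le (le_sup (f := id) hn)
      rw [e1]
      refine (sum_le_sum_of_subset_of_nonneg e2 fun n _ _ => by positivity).trans ?_
      set T := (J.image Encodable.encode).sup id + 1 with hT
      have h7 : ∑ j ∈ range T, (1 / 2 : ℝ) ^ (j + 1) = (∑ j ∈ range T, (1 / 2 : ℝ) ^ j) * (1 / 2) := by
        rw [sum_mul]
        apply sum_congr rfl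
        intro j _
        rw [pow_succ]
      rw [h7, geom_sum_eq (by norm_num)]
      have h8 : (0 : ℝ) ≤ (1 / 2) ^ T := by positivity
      have h9 : ((1 / 2 : ℝ) ^ T - 1) / (1 / 2 - 1) = 2 * (1 - (1 / 2) ^ T) := by
        field_simp
        ring
      rw [h9]
      linarith
    calc η * N * ∑ i ∈ J, (1 / 2 : ℝ) ^ (Encodable.encode i + 1) ≤ η * N * 1 :=
          mul_le_mul_of_nonneg_left h6 (by positivity)
      _ = η * N := mul_one _
  · intro p m a k M l hv
    refine ⟨(hb (p, m, a, k, M, l) hv).1, fun c hc hcon => hc (p, m, a, k, M, l) ⟨hv, hcon⟩⟩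

/-- the Fourier coefficients tend to zero along the universal set -/
theorem coeff_tendsto {C : Set ℕ} {β : Idx → ℕ}
    (hC : ∀ (p m a k M : ℕ) (l : List ℕ), Valid p k M l →
      Level p k (del m) (kap (del m) * del m) (β (p, m, a, k, M, l)) ∧
      ∀ c ∈ C, (a + 1) * c ∉ ES p k (wt p M l) (del m) (β (p, m, a, k, M, l)))
    {p : ℕ} (hp : 2 ≤ p) {μ : Measure X} [IsProbabilityMeasure μ]
    (hμ : MeasurePreserving (fun x : X => p • x) μ μ) (hat : ∀ x, μ {x} = 0) (a : ℕ) :
    Tendsto (fun c : ℕ => ∫ x, (fourier (((a + 1) * c : ℕ) : ℤ) x : ℂ) ∂μ) (atTop ⊓ 𝓟 C) (𝓝 0) := by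
  rw [Metric.tendsto_nhds]
  intro ε hε
  obtain ⟨m, hm⟩ := exists_nat_one_div_lt (show (0 : ℝ) < ε / 6 by positivity)
  have hδ0 := del_pos m
  have hδ1 : del m < ε / 6 := hm
  have hkap := kap_pos hδ0
  obtain ⟨k, M, l, hw, hwn, hent⟩ := exists_weight hp hμ (mul_pos hkap hδ0)
  obtain ⟨hβ, hgood⟩ := hC p m a k M l ⟨hp, hw, hwn⟩
  -- the neighbourhoods
  have hnx : Tendsto (fun c : ℕ => nx ((a + 1) * c)) atTop atTop := by
    refine tendsto_atTop_mono (fun c => ?_) tendsto_id
    have h1 := lt_nx ((a + 1) * c)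
    have h2 : c ≤ (a + 1) * c := Nat.le_mul_of_pos_left c (Nat.succ_pos a)
    exact (h2.trans h1.le)
  have h3 := ((near_tendsto hat (p ^ β (p, m, a, k, M, l))).comp hnx).const_mul (AA p (del m) / kap (del m))
  rw [mul_zero] at h3
  have h4 := h3.eventually (gt_mem_nhds hδ0)
  rw [eventually_inf_principal]
  filter_upwards [h4] with c hc hcC
  have h5 := coeff hp hμ.map_eq hδ0 hw hwn hent hβ (hgood c hcC)
  rw [dist_zero_right]
  simp only [Function.comp] at hc
  linarith

/-- **The universal set of frequencies.** -/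
theorem main {η : ℝ} (hη : 0 < η) : ∃ C : Set ℕ,
    (∀ N : ℕ, ((Nat.card {c : ℕ | c < N ∧ c ∉ C} : ℕ) : ℝ) ≤ η * N) ∧
    ∀ p : ℕ, 2 ≤ p → ∀ μ : Measure X, IsProbabilityMeasure μ →
      MeasurePreserving (fun x : X => p • x) μ μ → (∀ x, μ {x} = 0) →
      (∀ f : C(X, ℝ), Tendsto (fun c : ℕ => ∫ x, f (c • x) ∂μ) (atTop ⊓ 𝓟 C) (𝓝 (∫ x, f x))) ∧
      ∀ S : Set ℕ, S ⊆ C → S.Infinite → (∀ c ∈ S, MeasurePreserving (fun x : X => c • x) μ μ) →
        μ = volume := by
  classical
  obtain ⟨C, β, h1, h2⟩ := exists_set hη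
  refine ⟨C, ?_, ?_⟩
  · intro N
    have e : Nat.card {c : ℕ | c < N ∧ c ∉ C} = ((range N).filter fun c => c ∉ C).card := by
      rw [← Nat.card_eq_finsetCard]
      apply Nat.card_congr
      refine Equiv.subtypeEquivRight fun c => ?_
      simp [mem_filter]
    rw [e]
    exact h1 N
  · intro p hp μ hμp hμ hat
    have h3 : ∀ f : C(X, ℝ), Tendsto (fun c : ℕ => ∫ x, f (c • x) ∂μ) (atTop ⊓ 𝓟 C)
        (𝓝 (∫ x, f x)) := fun f => equi (fun a => coeff_tendsto h2 hp hμ hat a) f
    refine ⟨h3, fun S hS hSi hinv => ?_⟩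
    have hle : (atTop ⊓ 𝓟 S : Filter ℕ) ≤ atTop ⊓ 𝓟 C := inf_le_inf_left _ (principal_mono.2 hS)
    exact eq_volume hSi hinv fun f => (h3 f).mono_left hle

end Pool.Agent.TH463.UQ
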