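import Pool.Agent.TH654.FC.Trace
import Pool.Agent.TH654.FC.Fin
import Pool.Agent.TH463.UQ.Univ

/-!
The universal set of multipliers and the tracial states of the group algebra of `ℤ² ⋉ ℤ[1/6]`.
The lemma `kernel'` is a variant of a lemma of `TH654.FC.Trace`.
-/

set_option autoImplicit false

open MeasureTheory Filter Topology
open scoped ComplexOrder

namespace Pool.Agent.TH463.UQ

open Pool.Agent.W763.Tr
open Pool.Agent.TH654.FC

section

variable {G : Subgroup (Equiv.Perm ℚ)} {τ : ℤ → G} {φ : G → ℂ} {S6 : G} {μ : Measure UnitAddCircle}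

/-- the kernel of an extreme trace whose measure has an atom of finite order -/
lemma kernel' (D : Data G τ φ S6 μ)
    (hext : φ ∈ Set.extremePoints ℝ {ψ : G → ℂ | ψ 1 = 1 ∧ (∀ g h : G, ψ (h * g * h⁻¹) = ψ g) ∧
        ∀ (s : Finset G) (c : G → ℂ), 0 ≤ ∑ i ∈ s, ∑ j ∈ s, star (c j) * c i * ψ (j⁻¹ * i)})
    {N : ℕ} (hN1 : 1 ≤ N) (hN : μ {x : UnitAddCircle | N • x = 0} ≠ 0) :
    ∃ M : ℕ, 1 ≤ M ∧ ∀ n : ℤ, φ (τ (M * n)) = 1 := by
  have := D.prob
  set lam : ℝ := μ.real {x : UnitAddCircle | N • x = 0} with hlam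
  have hpos : 0 < lam := by
    rw [hlam, Measure.real, ENNReal.toReal_pos_iff]
    exact ⟨pos_iff_ne_zero.mpr hN, measure_lt_top _ _⟩
  have hm : MeasurableSet {x : UnitAddCircle | N • x = 0} :=
    (isClosed_eq (by fun_prop) continuous_const).measurableSet
  have hnorm := D.normal N
  have key := extreme_kernel φ hext (transl G N) lam hpos (by
    intro ι t w b hb hw0 hw1
    -- common denominator
    have hch : ∀ i : ι, ∃ (n : ℤ) (k : ℕ), i ∈ t → ∀ x, (b i : Equiv.Perm ℚ) x = x + N * (n / 6 ^ k) := by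
      intro i
      by_cases hi : i ∈ t
      · obtain ⟨r, ⟨n, k, rfl⟩, h⟩ := hb i hi
        exact ⟨n, k, fun _ => h⟩
      · exact ⟨0, 0, fun h => absurd h hi⟩
    choose n0 k0 hn0 using hch
    set K := t.sup k0 with hK
    set n : ι → ℤ := fun i => n0 i * 6 ^ (K - k0 i) with hn
    have hbt : ∀ i ∈ t, ∀ x, (b i : Equiv.Perm ℚ) x = x + N * (n i / 6 ^ K) := by
      intro i hi x
      rw [hn0 i hi x, hn]
      have hle : k0 i ≤ K := Finset.le_sup hi
      have e : (6 : ℚ) ^ K = 6 ^ (K - k0 i) * 6 ^ k0 i := by rw [← pow_add]; congr 1; omega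
      have h6 : (6 : ℚ) ^ (K - k0 i) ≠ 0 := by positivity
      have h6' : (6 : ℚ) ^ (k0 i) ≠ 0 := by positivity
      push_cast
      rw [e]
      field_simp
    have hval : ∀ i ∈ t, ∀ j ∈ t, φ ((b j)⁻¹ * b i) = ∫ x, fourier (N * (n i - n j)) x ∂μ := by
      intro i hi j hj
      rw [D.hμ]
      refine phi_trans D.hτ D.hcl S6 D.hS6 _ _ K fun x => ?_
      rw [Subgroup.coe_mul, Equiv.Perm.mul_apply, Subgroup.coe_inv, Equiv.Perm.inv_eq_iff_eq,
        hbt i hi, hbt j hj]
      push_cast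
      field_simp
      ring
    set F : UnitAddCircle → ℂ := fun x => ∑ i ∈ t, (w i : ℂ) * fourier (N * n i) x with hF
    have hFc : Continuous F := by rw [hF]; fun_prop
    have hsq : ∀ x, ((‖F x‖ ^ 2 : ℝ) : ℂ) =
        ∑ i ∈ t, ∑ j ∈ t, (w j : ℂ) * w i * fourier (N * (n i - n j)) x := by
      intro x
      have e1 : ((‖F x‖ ^ 2 : ℝ) : ℂ) = F x * starRingEnd ℂ (F x) := by
        rw [Complex.mul_conj, Complex.normSq_eq_norm_sq]
      rw [e1, hF]
      simp only
      rw [map_sum, Finset.sum_mul]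
      refine Finset.sum_congr rfl fun i _ => ?_
      rw [Finset.mul_sum]
      refine Finset.sum_congr rfl fun j _ => ?_
      rw [map_mul, Complex.conj_ofReal, ← fourier_neg]
      have e2 : fourier (N * (n i - n j)) x = fourier (N * n i) x * fourier (-(N * n j)) x := by
        rw [← fourier_add]; congr 1; ring_nf
      rw [e2]; ring
    have hsum : ∑ i ∈ t, ∑ j ∈ t, (w j : ℂ) * w i * φ ((b j)⁻¹ * b i) =
        ∫ x, ((‖F x‖ ^ 2 : ℝ) : ℂ) ∂μ := by
      simp only [hsq]
      have hi : ∀ m : ℤ, Integrable (fun x : UnitAddCircle => (fourier m x : ℂ)) μ := fun m =>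
        (by fun_prop : Continuous (fun x : UnitAddCircle =>
          (fourier m x : ℂ))).integrable_of_hasCompactSupport (HasCompactSupport.of_compactSpace _)
      rw [integral_finsetSum]
      · refine Finset.sum_congr rfl fun i hi' => ?_
        rw [integral_finsetSum]
        · refine Finset.sum_congr rfl fun j hj' => ?_
          rw [integral_const_mul, hval i hi' j hj']
        · intro j _
          exact (hi _).const_mul _
      · intro i _
        exact integrable_finsetSum _ fun j _ => (hi _).const_mul _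
    rw [hsum, integral_complex_ofReal, Complex.ofReal_re, hlam]
    have hint : Integrable (fun x => ‖F x‖ ^ 2) μ :=
      Pool.Agent.H261R2.FU.int_sq_cont (by fun_prop)
    calc μ.real {x : UnitAddCircle | N • x = 0}
        = ∫ x, ({x : UnitAddCircle | N • x = 0}.indicator (fun _ => (1 : ℝ))) x ∂μ := by
          rw [integral_indicator hm]; simp [Measure.real]
      _ ≤ ∫ x, ‖F x‖ ^ 2 ∂μ := by
          apply integral_mono ((integrable_const (1 : ℝ)).indicator hm) hint
          intro x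
          by_cases hx : x ∈ {x : UnitAddCircle | N • x = 0}
          · rw [Set.indicator_of_mem hx]
            have h7 : F x = 1 := by
              rw [hF]
              simp only
              have h8 : ∀ i, fourier (N * n i) x = (1 : ℂ) := by
                intro i
                rw [fourier_eq_one, mul_comm, mul_smul, natCast_zsmul,
                  show N • x = 0 from hx, smul_zero]
                simp
              simp only [h8, mul_one]
              have := congrArg (fun r : ℝ => (r : ℂ)) hw1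
              simpa using this
            simp only [h7, norm_one, one_pow]
            exact le_rfl
          · rw [Set.indicator_of_notMem hx]; positivity)
  refine ⟨N, hN1, fun n => key _ ⟨n, ⟨n, 0, by simp⟩, fun x => ?_⟩⟩
  rw [D.hτ]; push_cast; ring

/-- the trichotomy for extreme traces -/
lemma finite_or_atomless (D : Data G τ φ S6 μ)
    (hext : φ ∈ Set.extremePoints ℝ {ψ : G → ℂ | ψ 1 = 1 ∧ (∀ g h : G, ψ (h * g * h⁻¹) = ψ g) ∧
        ∀ (s : Finset G) (c : G → ℂ), 0 ≤ ∑ i ∈ s, ∑ j ∈ s, star (c j) * c i * ψ (j⁻¹ * i)}) :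
    FiniteDimensional ℂ (Submodule.span ℂ {F : G → ℂ | ∃ n : G,
        (∃ r : ℚ, ∀ x : ℚ, (n : Equiv.Perm ℚ) x = x + r) ∧ F = fun x => φ (n * x)}) ∨
      ∀ x, μ {x} = 0 := by
  have := D.prob
  by_cases hat : ∀ x, μ {x} = 0
  · exact Or.inr hat
  · left
    push Not at hat
    obtain ⟨x, hx⟩ := hat
    have hxt : x ∈ Tors := by
      by_contra hcon
      exact hx (atom_tors le_rfl D.mp2 hcon)
    obtain ⟨N, hN1, hN⟩ := hxt
    have hpos : μ {y : UnitAddCircle | N • y = 0} ≠ 0 := by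
      intro h0
      exact hx (measure_mono_null (Set.singleton_subset_iff.2 hN) h0)
    exact finite_dim D.hτ D.h1 D.hcl D.hpd S6 D.hS6 D.hform D.h2 D.h3 (kernel' D hext hN1 hpos)

/-- the values on powers of translations -/
lemma pow' (D : Data G τ φ S6 μ) {g : G} (hg1 : g ≠ 1) {r : ℚ}
    (hg : ∀ x, (g : Equiv.Perm ℚ) x = x + r) :
    ∃ m : ℤ, m ≠ 0 ∧ ∀ n : ℕ, φ (g ^ n) = φ (τ (m * n)) := by
  obtain ⟨m, k, hr⟩ := D.six hg
  refine ⟨m, ?_, fun n => ?_⟩
  · intro hm
    apply hg1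
    apply Subtype.ext
    apply Equiv.ext
    intro x
    rw [hg, hr, hm]
    simp
  have hpow : ∀ x, ((g ^ n : G) : Equiv.Perm ℚ) x = x + n * r := by
    induction n with
    | zero => intro x; simp
    | succ n ih =>
      intro x
      rw [pow_succ, Subgroup.coe_mul, Equiv.Perm.mul_apply, hg, ih]
      push_cast; ring
  refine phi_trans D.hτ D.hcl S6 D.hS6 (g ^ n) (m * n) k fun x => ?_
  rw [hpow, hr]
  push_cast; ring

end

/-- from weak convergence to Fourier coefficients -/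
lemma coeff_of_equi {μ : Measure UnitAddCircle} [IsProbabilityMeasure μ] {l : Filter ℕ}
    (h : ∀ f : C(UnitAddCircle, ℝ), Tendsto (fun c : ℕ => ∫ x, f (c • x) ∂μ) l (𝓝 (∫ x, f x)))
    {m : ℤ} (hm : m ≠ 0) :
    Tendsto (fun c : ℕ => ∫ x, (fourier (m * (c : ℤ)) x : ℂ) ∂μ) l (𝓝 0) := by
  have h1 := h ⟨fun x => (fourier m x : ℂ).re, Complex.continuous_re.comp (fourier m).continuous⟩
  have h2 := h ⟨fun x => (fourier m x : ℂ).im, Complex.continuous_im.comp (fourier m).continuous⟩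
  simp only [ContinuousMap.coe_mk] at h1 h2
  have hvol : IsProbabilityMeasure (volume : Measure UnitAddCircle) :=
    ⟨UnitAddCircle.measure_univ⟩
  have h3 : (∫ x : UnitAddCircle, (fourier m x : ℂ)) = 0 :=
    Pool.Agent.H769R3.integral_fourier_volume hm
  have hi : ∀ (ν : Measure UnitAddCircle) [IsProbabilityMeasure ν] (n : ℤ),
      Integrable (fun x => (fourier n x : ℂ)) ν := fun ν _ n =>
    integrable_continuous ν (fourier n).continuous
  have e1 : (∫ x : UnitAddCircle, (fourier m x : ℂ).re) = 0 := by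
    have h4 := integral_re (hi volume m)
    simp only [RCLike.re_to_complex] at h4
    rw [h4, h3, Complex.zero_re]
  have e2 : (∫ x : UnitAddCircle, (fourier m x : ℂ).im) = 0 := by
    have h4 := integral_im (hi volume m)
    simp only [RCLike.im_to_complex] at h4
    rw [h4, h3, Complex.zero_im]
  rw [e1] at h1
  rw [e2] at h2
  have h5 : ∀ c : ℕ, ∫ x, (fourier (m * (c : ℤ)) x : ℂ) ∂μ =
      ((∫ x, (fourier m (c • x) : ℂ).re ∂μ : ℝ) : ℂ) + ((∫ x, (fourier m (c • x) : ℂ).im ∂μ : ℝ) : ℂ) *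
        Complex.I := by
    intro c
    have h6 : ∀ x : UnitAddCircle, (fourier (m * (c : ℤ)) x : ℂ) = fourier m (c • x) := by
      intro x
      rw [fourier_apply, fourier_apply, mul_smul, natCast_zsmul]
    simp_rw [h6]
    have h7 : Integrable (fun x => (fourier m (c • x) : ℂ)) μ := by
      simp_rw [← h6]
      exact hi μ _
    have h8 := integral_re_add_im h7
    simp only [RCLike.re_to_complex, RCLike.im_to_complex] at h8
    rw [← h8]
    rfl
  simp_rw [h5]
  have h9 := ((Complex.continuous_ofReal.tendsto 0).comp h1).add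
    (((Complex.continuous_ofReal.tendsto 0).comp h2).mul_const Complex.I)
  simp only [Complex.ofReal_zero, zero_mul, add_zero] at h9
  exact h9

/-- **Traces.** -/
theorem traces {η : ℝ} (hη : 0 < η) : ∃ C : Set ℕ,
    (∀ N : ℕ, ((Nat.card {c : ℕ | c < N ∧ c ∉ C} : ℕ) : ℝ) ≤ η * N) ∧
    ∀ (s2 s3 t : Equiv.Perm ℚ), (∀ x : ℚ, s2 x = 2 * x) → (∀ x : ℚ, s3 x = 3 * x) →
    (∀ x : ℚ, t x = x + 1) →
    ∀ (G : Subgroup (Equiv.Perm ℚ)), G = Subgroup.closure {s2, s3, t} → ∀ φ : G → ℂ,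
      φ ∈ Set.extremePoints ℝ {ψ : G → ℂ | ψ 1 = 1 ∧ (∀ g h : G, ψ (h * g * h⁻¹) = ψ g) ∧
        ∀ (s : Finset G) (c : G → ℂ), 0 ≤ ∑ i ∈ s, ∑ j ∈ s, star (c j) * c i * ψ (j⁻¹ * i)} →
      (FiniteDimensional ℂ (Submodule.span ℂ {F : G → ℂ | ∃ n : G,
          (∃ r : ℚ, ∀ x : ℚ, (n : Equiv.Perm ℚ) x = x + r) ∧ F = fun x => φ (n * x)}) ∨
        ∀ g : G, g ≠ 1 → (∃ r : ℚ, ∀ x : ℚ, (g : Equiv.Perm ℚ) x = x + r) →
          Tendsto (fun c : ℕ => φ (g ^ c)) (atTop ⊓ 𝓟 C) (𝓝 0)) ∧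
      ∀ S : Set ℕ, S ⊆ C → S.Infinite →
        (∀ c ∈ S, ∀ g : G, (∃ r : ℚ, ∀ x : ℚ, (g : Equiv.Perm ℚ) x = x + r) → φ (g ^ c) = φ g) →
        φ = Set.indicator ({1} : Set G) (fun _ => (1 : ℂ)) ∨
          FiniteDimensional ℂ (Submodule.span ℂ {F : G → ℂ | ∃ n : G,
            (∃ r : ℚ, ∀ x : ℚ, (n : Equiv.Perm ℚ) x = x + r) ∧ F = fun x => φ (n * x)}) := by
  obtain ⟨C, hC1, hC2⟩ := main hη
  refine ⟨C, hC1, fun s2 s3 t hs2 hs3 ht G hG φ hext => ?_⟩
  obtain ⟨h1, hcl, hpd⟩ := hext.1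
  obtain ⟨τ, S6, μ, D⟩ := data_of hs2 hs3 ht hG h1 hcl hpd
  have hprob := D.prob
  have hkey : (∀ x, μ {x} = 0) → ∀ g : G, g ≠ 1 →
      (∃ r : ℚ, ∀ x : ℚ, (g : Equiv.Perm ℚ) x = x + r) →
      Tendsto (fun c : ℕ => φ (g ^ c)) (atTop ⊓ 𝓟 C) (𝓝 0) := by
    rintro hat g hg1 ⟨r, hg⟩
    obtain ⟨m, hm, hmn⟩ := pow' D hg1 hg
    simp_rw [hmn]
    simp_rw [← D.hμ]
    exact coeff_of_equi (hC2 2 le_rfl μ D.prob D.mp2 hat).1 hm
  rcases finite_or_atomless D hext with hfd | hat
  · exact ⟨Or.inl hfd, fun _ _ _ _ => Or.inr hfd⟩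
  · refine ⟨Or.inr (hkey hat), fun S hS hSi hinv => Or.inl ?_⟩
    haveI : (atTop ⊓ 𝓟 S : Filter ℕ).NeBot := by
      rw [← Filter.frequently_mem_iff_neBot]
      exact Nat.frequently_atTop_iff_infinite.2 hSi
    have hle : (atTop ⊓ 𝓟 S : Filter ℕ) ≤ atTop ⊓ 𝓟 C := inf_le_inf_left _ (principal_mono.2 hS)
    have hz : ∀ g : G, g ≠ 1 → (∃ r : ℚ, ∀ x : ℚ, (g : Equiv.Perm ℚ) x = x + r) → φ g = 0 := by
      intro g hg1 hg
      have h3 := (hkey hat g hg1 hg).mono_left hle
      have h4 : Tendsto (fun c : ℕ => φ (g ^ c)) (atTop ⊓ 𝓟 S) (𝓝 (φ g)) := by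
        refine (tendsto_const_nhds (x := φ g)).congr' ?_
        have h5 : ∀ᶠ c : ℕ in atTop ⊓ 𝓟 S, c ∈ S :=
          eventually_inf_principal.2 (Eventually.of_forall fun _ h => h)
        filter_upwards [h5] with c hc
        exact (hinv c hc g hg).symm
      exact tendsto_nhds_unique h4 h3
    have hz' : ∀ n : ℤ, n ≠ 0 → φ (τ n) = 0 := by
      intro n hn
      refine hz (τ n) ?_ ⟨n, D.hτ n⟩
      intro h0
      have h5 := D.hτ n 0
      rw [h0] at h5
      simp at h5
      exact hn (by exact_mod_cast h5.symm)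
    funext g
    by_cases hg : g = 1
    · rw [hg, h1]
      simp
    · rw [eq_regular D.hτ D.h1 D.hcl D.hpd S6 D.hS6 D.hform hz' g hg]
      simp [hg]

end Pool.Agent.TH463.UQ
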