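import Pool.Agent.TH463.UQ.Gibbs

/-!
The Fourier coefficient of an invariant measure at a frequency which is not exceptional.
-/

set_option autoImplicit false

open Finset Filter Topology MeasureTheory
open scoped ENNReal

namespace Pool.Agent.TH463.UQ

open Pool.Agent.H769R3 (X rep fourier_norm)
open Pool.Agent.TH463.UP (D D_lt measurable_D Near nx lt_nx mp_pow)

lemma integrable_D {p : ℕ} (hp : 2 ≤ p) (μ : Measure X) [IsFiniteMeasure μ] (L : ℕ) (F : ℕ → ℝ) :
    Integrable (fun x => F (D p L x)) μ := by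
  classical
  have h1 : ∀ x : X, F (D p L x) = ∑ s ∈ range (p ^ L), (cyl p L s).indicator (fun _ => F s) x := by
    intro x
    rw [sum_eq_single (D p L x)]
    · rw [Set.indicator_of_mem]
      exact rfl
    · intro s _ hs
      rw [Set.indicator_of_notMem]
      intro h
      exact hs (h : D p L x = s).symm
    · intro h
      exact absurd (mem_range.2 (D_lt hp L x)) h
  simp_rw [h1]
  exact integrable_finsetSum _ fun s _ => (integrable_const _).indicator (meas_cyl p L s)

lemma continuous_Su (p h L : ℕ) : Continuous (Su p h L) := by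
  unfold Su
  refine continuous_finset_sum _ fun j _ => ?_
  exact (fourier (h : ℤ)).continuous.comp (by fun_prop)

lemma integrable_continuous {E : Type} [NormedAddCommGroup E] (μ : Measure X) [IsFiniteMeasure μ]
    {g : X → E} (hg : Continuous g) : Integrable g μ :=
  hg.integrable_of_hasCompactSupport (HasCompactSupport.of_compactSpace _)

lemma integral_Su {p : ℕ} {μ : Measure X} [IsProbabilityMeasure μ]
    (hμ : μ.map (fun x : X => (p : ℕ) • x) = μ) (h L : ℕ) :
    ∫ x, Su p h L x ∂μ = (L : ℂ) * ∫ x, (fourier (h : ℤ) x : ℂ) ∂μ := by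
  unfold Su
  have hfi : ∀ j : ℕ, Integrable (fun x => (fourier (h : ℤ) ((p ^ j : ℕ) • x) : ℂ)) μ := fun j =>
    integrable_continuous μ ((fourier (h : ℤ)).continuous.comp (by fun_prop))
  rw [integral_finsetSum _ fun j _ => hfi j]
  have h1 : ∀ j ∈ range L, ∫ x, (fourier (h : ℤ) ((p ^ j : ℕ) • x) : ℂ) ∂μ =
      ∫ x, (fourier (h : ℤ) x : ℂ) ∂μ := by
    intro j _
    have h2 := (mp_pow hμ j).map_eq
    conv_rhs => rw [← h2]
    rw [integral_map (by fun_prop) (fourier (h : ℤ)).continuous.aestronglyMeasurable]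
  rw [sum_congr rfl h1]
  simp

lemma u_split (p k : ℕ) (w : ℕ → ℝ) (δ ε : ℝ) (Q N : ℕ) : (fun x => u p k w δ ε Q N x) =
    fun x : X => -Real.log (w (D p (k + 1) x)) + (ε + 2 * kap δ * δ) +
      AA p δ * (Near Q N).indicator (fun _ => (1 : ℝ)) x := by
  classical
  funext x
  unfold u
  by_cases h : x ∈ Near Q N
  · simp [h]
  · simp [h]

lemma meas_near (Q N : ℕ) : MeasurableSet (Near Q N) :=
  (Metric.isClosed_cthickening).measurableSet

lemma integrable_u {p : ℕ} (hp : 2 ≤ p) (k : ℕ) (w : ℕ → ℝ) (δ ε : ℝ) (Q N : ℕ) (μ : Measure X)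
    [IsFiniteMeasure μ] : Integrable (fun x => u p k w δ ε Q N x) μ := by
  rw [u_split]
  exact ((integrable_D hp μ (k + 1) (fun s => -Real.log (w s))).add (integrable_const _)).add
    (((integrable_const _).indicator (meas_near Q N)).const_mul _)

lemma integral_u {p : ℕ} (hp : 2 ≤ p) (k : ℕ) (w : ℕ → ℝ) (δ ε : ℝ) (Q N : ℕ) (μ : Measure X)
    [IsProbabilityMeasure μ] : ∫ x, u p k w δ ε Q N x ∂μ =
      ∫ x, -Real.log (w (D p (k + 1) x)) ∂μ + (ε + 2 * kap δ * δ) + AA p δ * μ.real (Near Q N) := by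
  rw [u_split, integral_add, integral_add, integral_const_mul,
    integral_indicator_const _ (meas_near Q N)]
  · simp
  · exact integrable_D hp μ (k + 1) (fun s => -Real.log (w s))
  · exact integrable_const _
  · exact (integrable_D hp μ (k + 1) (fun s => -Real.log (w s))).add (integrable_const _)
  · exact ((integrable_const _).indicator (meas_near Q N)).const_mul _

/-- **The Fourier coefficient at a frequency which is not exceptional.** -/
theorem coeff {p : ℕ} (hp : 2 ≤ p) {μ : Measure X} [IsProbabilityMeasure μ]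
    (hμ : μ.map (fun x : X => (p : ℕ) • x) = μ) {δ : ℝ} (hδ : 0 < δ) {k : ℕ} {w : ℕ → ℝ}
    (hw : Pos w) (hwn : Norm p k w)
    (hent : ∫ x, -Real.log (w (D p (k + 1) x)) ∂μ ≤ ent p μ + 2 * (kap δ * δ)) {β₀ h : ℕ}
    (hβ : Level p k δ (kap δ * δ) β₀) (hgood : h ∉ ES p k w δ β₀) :
    ‖∫ x, (fourier (h : ℤ) x : ℂ) ∂μ‖ ≤ 5 * δ + AA p δ / kap δ * μ.real (Near (p ^ β₀) (nx h)) := by
  have hkap := kap_pos hδ
  set N := nx h with hN
  have hhN : h < N := lt_nx h
  have hgood' : h ∉ Exc p k w δ β₀ N := fun hcon => hgood (mem_ES.2 hcon)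
  set ε := kap δ * δ with hε
  have hε0 : 0 < ε := by positivity
  set I := ∫ x, (fourier (h : ℤ) x : ℂ) ∂μ with hI
  set U := ∫ x, u p k w δ ε (p ^ β₀) N x ∂μ with hU
  have hinvu : ∀ t : ℕ, ∫ x, u p k w δ ε (p ^ β₀) N ((p ^ t : ℕ) • x) ∂μ = U := by
    intro t
    have h2 := (mp_pow hμ t).map_eq
    have h3 : AEStronglyMeasurable (fun x => u p k w δ ε (p ^ β₀) N x)
        (μ.map (fun x : X => (p ^ t : ℕ) • x)) := by
      rw [h2]
      exact (integrable_u hp k w δ ε (p ^ β₀) N μ).aestronglyMeasurable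
    rw [hU]
    conv_rhs => rw [← h2]
    rw [integral_map (by fun_prop) h3]
  have hintu : ∀ t : ℕ, Integrable (fun x => u p k w δ ε (p ^ β₀) N ((p ^ t : ℕ) • x)) μ := by
    intro t
    exact ((mp_pow hμ t).integrable_comp
      (integrable_u hp k w δ ε (p ^ β₀) N μ).aestronglyMeasurable).2
      (integrable_u hp k w δ ε (p ^ β₀) N μ)
  have key : ∀ L : ℕ, 1 ≤ L → (L : ℝ) * (kap δ * ‖I‖ - U + ent p μ) ≤ Real.log (C0 p δ N) := by
    intro L hL
    have hintS : Integrable (fun x => kap δ * ‖Su p h L x‖) μ :=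
      (integrable_continuous μ (continuous_Su p h L).norm).const_mul _
    have hintsum : Integrable
        (fun x => ∑ t ∈ range L, u p k w δ ε (p ^ β₀) N ((p ^ t : ℕ) • x)) μ :=
      integrable_finsetSum _ fun t _ => hintu t
    have hintPsi : Integrable (Psi p k w δ ε (p ^ β₀) N h L) μ := hintS.sub hintsum
    have h1 := gibbs hp μ L hintPsi (C0_pos hp δ N)
      (pressure hp hw hwn hδ hε0 hβ hhN hgood' L)
    have h2 : ∫ x, Psi p k w δ ε (p ^ β₀) N h L x ∂μ =
        kap δ * ∫ x, ‖Su p h L x‖ ∂μ - L * U := by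
      unfold Psi
      rw [integral_sub hintS hintsum, integral_const_mul, integral_finsetSum _ fun t _ => hintu t,
        sum_congr rfl fun t _ => hinvu t, sum_const, card_range, nsmul_eq_mul]
    have h3 : (L : ℝ) * ‖I‖ ≤ ∫ x, ‖Su p h L x‖ ∂μ := by
      refine le_trans (le_of_eq ?_) (norm_integral_le_integral_norm _)
      rw [integral_Su hμ, norm_mul]
      simp [hI]
    have h4 := mul_le_mul_of_nonneg_left h3 hkap.le
    have h5 := ent_le p μ hL
    rw [h2] at h1
    have e : (L : ℝ) * (kap δ * ‖I‖ - U + ent p μ) =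
        kap δ * (L * ‖I‖) - L * U + ent p μ * L := by ring
    rw [e]
    linarith
  have hle : kap δ * ‖I‖ ≤ U - ent p μ := by
    by_contra hcon
    rw [not_le] at hcon
    set a := kap δ * ‖I‖ - U + ent p μ with ha
    have ha0 : 0 < a := by linarith
    obtain ⟨L, hL⟩ := exists_nat_gt (Real.log (C0 p δ N) / a)
    have h1 := key (L + 1) (by omega)
    rw [div_lt_iff₀ ha0] at hL
    push_cast at h1
    nlinarith
  rw [hU, integral_u hp] at hle
  have h6 : kap δ * ‖I‖ ≤ 3 * ε + 2 * kap δ * δ + AA p δ * μ.real (Near (p ^ β₀) N) := by linarith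
  have h7 : 3 * ε + 2 * kap δ * δ = kap δ * (5 * δ) := by
    rw [hε]
    ring
  rw [h7] at h6
  have h8 : ‖I‖ ≤ (kap δ * (5 * δ) + AA p δ * μ.real (Near (p ^ β₀) N)) / kap δ := by
    rw [le_div_iff₀ hkap]
    linarith
  refine h8.trans (le_of_eq ?_)
  field_simp

end Pool.Agent.TH463.UQ
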