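import Pool.Agent.TH463.UQ.Press
import Pool.Agent.TH463.UP.Exc

/-!
The exceptional multipliers for a weight.
-/

set_option autoImplicit false

open Finset Filter Topology
open scoped ENNReal

namespace Pool.Agent.TH463.UQ

open Pool.Agent.H769R3 (X)
open Pool.Agent.TH463.UP (D D_lt D_add cnt cnt_le_one Appr BadPair cP exc_card nx lt_nx)

/-- the words which are bad for `h` -/
def BW (p : ℕ) (δ : ℝ) (β N h : ℕ) : Set ℕ :=
  {s | ∃ ρ : ℚ, Appr p {x | D p (2 * β + 2) x = s} β N ρ ∧ BadPair p δ β h ρ}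

open Classical in
/-- the weight restricted to the bad words -/
noncomputable def WB (p k : ℕ) (w : ℕ → ℝ) (δ : ℝ) (β N h : ℕ) (x : X) : ℝ≥0∞ :=
  if D p (2 * β + 2) x ∈ BW p δ β N h then W p k w (2 * β + 2) x else 0

/-- the weight of the bad words -/
noncomputable def mB (p k : ℕ) (w : ℕ → ℝ) (δ : ℝ) (β N h : ℕ) : ℝ≥0∞ :=
  Z p (2 * β + 2) (WB p k w δ β N h)

lemma BW_empty {p : ℕ} (hp : 2 ≤ p) {δ : ℝ} {β N h : ℕ} (hβ : N ≤ β) : BW p δ β N h = ∅ := by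
  rw [Set.eq_empty_iff_forall_notMem]
  rintro s ⟨ρ, h1, -⟩
  have h2 : β < p ^ β := Nat.lt_pow_self (by omega)
  have h3 := h1.1
  have h4 := h1.2.2.1
  omega

lemma mB_zero {p : ℕ} (hp : 2 ≤ p) {k : ℕ} {w : ℕ → ℝ} {δ : ℝ} {β N h : ℕ} (hβ : N ≤ β) :
    mB p k w δ β N h = 0 := by
  unfold mB
  refine le_antisymm ((Z_le_const (c := 0) fun x => ?_).trans (by simp)) zero_le
  unfold WB
  rw [BW_empty hp hβ]
  simp

open Classical in
/-- few multipliers are bad for a given word -/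
lemma card_bad {p : ℕ} (hp : 2 ≤ p) {δ : ℝ} (hδ : 0 ≤ δ) (β N s : ℕ) :
    (((range N).filter fun h => s ∈ BW p δ β N h).card : ℝ) ≤
      8 * cP p * N * Real.exp (-(δ ^ 2 / 8) * β) := by
  have h1 := exc_card hp δ hδ β N {x | D p (2 * β + 2) x = s}
  have h2 : cnt p (2 * β + 2) {x : X | D p (2 * β + 2) x = s} ≤ 1 := cnt_le_one fun x hx => hx
  have h3 : (cnt p (2 * β + 2) {x : X | D p (2 * β + 2) x = s} : ℝ) ≤ 1 := by exact_mod_cast h2
  have hpos : (0 : ℝ) < Real.exp (-(δ ^ 2 / 8) * β) := Real.exp_pos _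
  have e : (range N).filter (fun h => s ∈ BW p δ β N h) = (range N).filter (fun h =>
      ∃ ρ : ℚ, Appr p {x | D p (2 * β + 2) x = s} β N ρ ∧ BadPair p δ β h ρ) := by
    apply filter_congr
    intro h _
    rfl
  rw [e]
  refine h1.trans ?_
  apply mul_le_mul_of_nonneg_right _ hpos.le
  calc 8 * (cP p : ℝ) * N * (cnt p (2 * β + 2) {x : X | D p (2 * β + 2) x = s} : ℝ) ≤
        8 * cP p * N * 1 := mul_le_mul_of_nonneg_left h3 (by positivity)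
    _ = _ := mul_one _

/-- the mean weight of the bad words -/
lemma sum_mB {p : ℕ} (hp : 2 ≤ p) {k : ℕ} {w : ℕ → ℝ} (hw : Norm p k w) {δ : ℝ} (hδ : 0 ≤ δ)
    (β N : ℕ) : ∑ h ∈ range N, mB p k w δ β N h ≤
      (p : ℝ≥0∞) ^ k * ENNReal.ofReal (8 * cP p * N * Real.exp (-(δ ^ 2 / 8) * β)) := by
  classical
  set R := 2 * β + 2 with hR
  set q : ℕ → ℝ≥0∞ := fun s => ⨆ x : X, ⨆ _ : D p R x = s, W p k w R x with hq
  have h1 : ∀ h, mB p k w δ β N h ≤ ∑ s ∈ range (p ^ R), if s ∈ BW p δ β N h then q s else 0 := by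
    intro h
    unfold mB Z
    refine sum_le_sum fun s _ => iSup₂_le fun x hx => ?_
    unfold WB
    rw [← hR, hx]
    split_ifs with hs
    · exact le_iSup₂ (f := fun (x : X) (_ : D p R x = s) => W p k w R x) x hx
    · exact le_rfl
  refine (sum_le_sum fun h _ => h1 h).trans ?_
  rw [sum_comm]
  have h2 : ∀ s ∈ range (p ^ R), (∑ h ∈ range N, if s ∈ BW p δ β N h then q s else 0) ≤
      q s * ENNReal.ofReal (8 * cP p * N * Real.exp (-(δ ^ 2 / 8) * β)) := by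
    intro s _
    rw [← sum_filter, sum_const, nsmul_eq_mul, mul_comm]
    apply mul_le_mul' le_rfl
    rw [← ENNReal.ofReal_natCast]
    exact ENNReal.ofReal_le_ofReal (card_bad hp hδ β N s)
  refine (sum_le_sum h2).trans ?_
  rw [← sum_mul]
  exact mul_le_mul' (Z_W hp hw R) le_rfl

open Classical in
/-- few multipliers have heavy bad words -/
lemma markov {p : ℕ} (hp : 2 ≤ p) {k : ℕ} {w : ℕ → ℝ} (hw : Norm p k w) {δ : ℝ} (hδ : 0 ≤ δ)
    (β N : ℕ) :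
    (((range N).filter fun h => ENNReal.ofReal (Real.exp (-(δ ^ 2 / 16) * β)) <
      mB p k w δ β N h).card : ℝ) ≤ (8 * cP p * (p : ℝ) ^ k) * N * Real.exp (-(δ ^ 2 / 16)) ^ β := by
  set F := (range N).filter fun h => ENNReal.ofReal (Real.exp (-(δ ^ 2 / 16) * β)) <
      mB p k w δ β N h with hF
  have h1 : (F.card : ℝ≥0∞) * ENNReal.ofReal (Real.exp (-(δ ^ 2 / 16) * β)) ≤
      (p : ℝ≥0∞) ^ k * ENNReal.ofReal (8 * cP p * N * Real.exp (-(δ ^ 2 / 8) * β)) := by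
    refine le_trans ?_ (sum_mB hp hw hδ β N)
    rw [← nsmul_eq_mul, ← sum_const]
    refine (sum_le_sum fun h hh => ?_).trans (sum_le_sum_of_subset (filter_subset _ _))
    exact (mem_filter.1 hh).2.le
  have h2 : ENNReal.ofReal ((F.card : ℝ) * Real.exp (-(δ ^ 2 / 16) * β)) ≤
      ENNReal.ofReal ((p : ℝ) ^ k * (8 * cP p * N * Real.exp (-(δ ^ 2 / 8) * β))) := by
    rw [ENNReal.ofReal_mul (Nat.cast_nonneg _), ENNReal.ofReal_mul (by positivity),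
      ENNReal.ofReal_natCast, ENNReal.ofReal_pow (Nat.cast_nonneg _), ENNReal.ofReal_natCast]
    exact h1
  rw [ENNReal.ofReal_le_ofReal_iff (by positivity)] at h2
  have e1 : Real.exp (-(δ ^ 2 / 8) * β) = Real.exp (-(δ ^ 2 / 16) * β) * Real.exp (-(δ ^ 2 / 16)) ^ β := by
    rw [← Real.exp_nat_mul, ← Real.exp_add]
    congr 1
    ring
  rw [e1] at h2
  have hpos : 0 < Real.exp (-(δ ^ 2 / 16) * β) := Real.exp_pos _
  refine le_of_mul_le_mul_right (h2.trans (le_of_eq ?_)) hpos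
  ring

/-- the exceptional multipliers for the bound `N` -/
def Exc (p k : ℕ) (w : ℕ → ℝ) (δ : ℝ) (β₀ N : ℕ) : Set ℕ :=
  {h | ∃ β, β₀ ≤ β ∧ ENNReal.ofReal (Real.exp (-(δ ^ 2 / 16) * β)) < mB p k w δ β N h}

lemma geom_tail {θ : ℝ} (hθ0 : 0 < θ) (hθ1 : θ < 1) (β₀ N : ℕ) :
    ∑ β ∈ Finset.Ico β₀ (β₀ + N), θ ^ β ≤ θ ^ β₀ / (1 - θ) := by
  have h4 : ∑ β ∈ Finset.Ico β₀ (β₀ + N), θ ^ β = θ ^ β₀ * ∑ i ∈ range N, θ ^ i := by
    rw [sum_Ico_eq_sum_range, mul_sum]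
    simp only [Nat.add_sub_cancel_left]
    apply sum_congr rfl
    intro i _
    rw [pow_add]
  rw [h4, geom_sum_eq hθ1.ne, div_eq_mul_inv (θ ^ β₀)]
  apply mul_le_mul_of_nonneg_left _ (by positivity)
  have h5 : (θ ^ N - 1) / (θ - 1) = (1 - θ ^ N) / (1 - θ) := by
    rw [← neg_div_neg_eq]; ring_nf
  rw [h5, div_eq_mul_inv]
  have h6 : (0 : ℝ) < (1 - θ)⁻¹ := by
    rw [inv_pos]; linarith
  have h7 : 0 ≤ θ ^ N := by positivity
  nlinarith

open Classical in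
lemma exc_card_le {p : ℕ} (hp : 2 ≤ p) {k : ℕ} {w : ℕ → ℝ} (hw : Norm p k w) {δ : ℝ} (hδ : 0 < δ)
    (β₀ N : ℕ) : (((range N).filter fun h => h ∈ Exc p k w δ β₀ N).card : ℝ) ≤
      ((8 * cP p * (p : ℝ) ^ k) * (Real.exp (-(δ ^ 2 / 16)) ^ β₀ / (1 - Real.exp (-(δ ^ 2 / 16))))) * N := by
  set θ := Real.exp (-(δ ^ 2 / 16)) with hθ
  have hθ0 : 0 < θ := Real.exp_pos _
  have hθ1 : θ < 1 := by
    rw [hθ, Real.exp_lt_one_iff]
    have : 0 < δ ^ 2 := by positivity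
    linarith
  have hsub : (range N).filter (fun h => h ∈ Exc p k w δ β₀ N) ⊆
      (Finset.Ico β₀ (β₀ + N)).biUnion fun β => (range N).filter fun h =>
        ENNReal.ofReal (Real.exp (-(δ ^ 2 / 16) * β)) < mB p k w δ β N h := by
    intro h hh
    rw [mem_filter] at hh
    obtain ⟨h1, β, h2, h3⟩ := hh
    rw [mem_biUnion]
    refine ⟨β, ?_, mem_filter.2 ⟨h1, h3⟩⟩
    rw [mem_Ico]
    refine ⟨h2, ?_⟩
    by_contra hcon
    rw [mB_zero hp (show N ≤ β by omega)] at h3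
    simp at h3
  have h1 : (((range N).filter fun h => h ∈ Exc p k w δ β₀ N).card : ℝ) ≤
      ∑ β ∈ Finset.Ico β₀ (β₀ + N), (((range N).filter fun h =>
        ENNReal.ofReal (Real.exp (-(δ ^ 2 / 16) * β)) < mB p k w δ β N h).card : ℝ) := by
    exact_mod_cast (card_le_card hsub).trans card_biUnion_le
  refine h1.trans ((sum_le_sum fun β _ => markov hp hw hδ.le β N).trans ?_)
  rw [← mul_sum]
  calc (8 * cP p * (p : ℝ) ^ k) * N * ∑ β ∈ Finset.Ico β₀ (β₀ + N), θ ^ β ≤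
        (8 * cP p * (p : ℝ) ^ k) * N * (θ ^ β₀ / (1 - θ)) :=
        mul_le_mul_of_nonneg_left (geom_tail hθ0 hθ1 β₀ N) (by positivity)
    _ = _ := by ring

/-- the choice of the level -/
def Level (p k : ℕ) (δ : ℝ) (ε : ℝ) (β₀ : ℕ) : Prop :=
  1 ≤ β₀ ∧ 2 * Real.pi ≤ δ * β₀ ∧ (p : ℝ) ^ k * (Real.exp (-ε) ^ β₀ / (1 - Real.exp (-ε))) ≤ 1 / 4 ∧
    Real.exp (δ ^ 2 / 32) * (Real.exp (-(δ ^ 2 / 32)) ^ β₀ / (1 - Real.exp (-(δ ^ 2 / 32)))) ≤ 1 / 4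

lemma tends {θ : ℝ} (hθ0 : 0 < θ) (hθ1 : θ < 1) (a : ℝ) {η : ℝ} (hη : 0 < η) :
    ∀ᶠ b : ℕ in atTop, a * (θ ^ b / (1 - θ)) ≤ η := by
  have t1 : Tendsto (fun b : ℕ => a * (θ ^ b / (1 - θ))) atTop (𝓝 (a * (0 / (1 - θ)))) :=
    ((tendsto_pow_atTop_nhds_zero_of_lt_one hθ0.le hθ1).div_const _).const_mul _
  rw [zero_div, mul_zero] at t1
  filter_upwards [t1.eventually (gt_mem_nhds hη)] with b hb
  exact hb.le

open Classical in
lemma exc_bound {p : ℕ} (hp : 2 ≤ p) {k : ℕ} {w : ℕ → ℝ} (hw : Norm p k w) {δ ε : ℝ} (hδ : 0 < δ)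
    (hε : 0 < ε) {η : ℝ} (hη : 0 < η) : ∃ β₀ : ℕ, Level p k δ ε β₀ ∧ ∀ N : ℕ,
      (((range N).filter fun h => h ∈ Exc p k w δ β₀ N).card : ℝ) ≤ η * N := by
  have hd : 0 < δ ^ 2 := by positivity
  have e1 := tends (Real.exp_pos (-(δ ^ 2 / 16))) (Real.exp_lt_one_iff.2 (by linarith))
    (8 * cP p * (p : ℝ) ^ k) hη
  have e2 := tends (Real.exp_pos (-ε)) (Real.exp_lt_one_iff.2 (by linarith)) ((p : ℝ) ^ k)
    (by norm_num : (0 : ℝ) < 1 / 4)
  have e3 := tends (Real.exp_pos (-(δ ^ 2 / 32))) (Real.exp_lt_one_iff.2 (by linarith))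
    (Real.exp (δ ^ 2 / 32)) (by norm_num : (0 : ℝ) < 1 / 4)
  have t2 : Tendsto (fun b : ℕ => δ * (b : ℝ)) atTop atTop :=
    tendsto_natCast_atTop_atTop.const_mul_atTop hδ
  have e4 := t2.eventually_ge_atTop (2 * Real.pi)
  obtain ⟨b, ⟨⟨h1, h2⟩, h3⟩, h4, h5⟩ :=
    (((e1.and e2).and e3).and (e4.and (eventually_ge_atTop 1))).exists
  refine ⟨b, ⟨h5, h4, h2, h3⟩, fun N => ?_⟩
  exact (exc_card_le hp hw hδ b N).trans (mul_le_mul_of_nonneg_right h1 (Nat.cast_nonneg N))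

/-- the exceptional multipliers -/
def ES (p k : ℕ) (w : ℕ → ℝ) (δ : ℝ) (β₀ : ℕ) : Set ℕ := {h | h ∈ Exc p k w δ β₀ (nx h)}

lemma mem_ES {p k : ℕ} {w : ℕ → ℝ} {δ : ℝ} {β₀ h : ℕ} :
    h ∈ ES p k w δ β₀ ↔ h ∈ Exc p k w δ β₀ (nx h) := by
  unfold ES
  rw [Set.mem_setOf_eq]

open Classical in
lemma es_bound {p k : ℕ} {w : ℕ → ℝ} {δ : ℝ} {β₀ : ℕ} {η : ℝ} (hη : 0 < η)
    (H : ∀ N : ℕ, (((range N).filter (fun h => h ∈ Exc p k w δ β₀ N)).card : ℝ) ≤ η * N) (N : ℕ) :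
    (((range N).filter (fun h => h ∈ ES p k w δ β₀)).card : ℝ) ≤ 4 * η * N := by
  rcases Nat.eq_zero_or_pos N with hN | hN
  · rw [hN]
    simp
  have hsub : (range N).filter (fun h => h ∈ ES p k w δ β₀) ⊆
      (range (Nat.log 2 N + 1)).biUnion fun i =>
      (range (2 ^ (i + 1))).filter (fun h => h ∈ Exc p k w δ β₀ (2 ^ (i + 1))) := by
    intro h hh
    rw [mem_filter, mem_range] at hh
    rw [mem_biUnion]
    refine ⟨Nat.log 2 h, ?_, ?_⟩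
    · rw [mem_range]
      have := Nat.log_mono_right (b := 2) hh.1.le
      omega
    · rw [mem_filter, mem_range]
      have e1 : nx h = 2 ^ (Nat.log 2 h + 1) := rfl
      have h3 := mem_ES.1 hh.2
      have h4 := lt_nx h
      rw [e1] at h3 h4
      exact ⟨h4, h3⟩
  have h1 : (((range N).filter (fun h => h ∈ ES p k w δ β₀)).card : ℝ) ≤
      ∑ i ∈ range (Nat.log 2 N + 1),
        (((range (2 ^ (i + 1))).filter (fun h => h ∈ Exc p k w δ β₀ (2 ^ (i + 1)))).card : ℝ) := by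
    exact_mod_cast (card_le_card hsub).trans card_biUnion_le
  have h2 : ∀ i ∈ range (Nat.log 2 N + 1),
      (((range (2 ^ (i + 1))).filter (fun h => h ∈ Exc p k w δ β₀ (2 ^ (i + 1)))).card : ℝ) ≤
        (2 * η) * 2 ^ i := by
    intro i _
    refine (H _).trans (le_of_eq ?_)
    push_cast
    rw [pow_succ]
    ring
  refine h1.trans ((sum_le_sum h2).trans ?_)
  rw [← mul_sum]
  have h3 : ∑ i ∈ range (Nat.log 2 N + 1), (2 : ℝ) ^ i ≤ 2 * N := by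
    rw [geom_sum_eq (by norm_num)]
    have h4 : (2 : ℝ) ^ (Nat.log 2 N) ≤ N := by exact_mod_cast Nat.pow_log_le_self 2 hN.ne'
    rw [pow_succ]
    norm_num
    linarith
  calc 2 * η * ∑ i ∈ range (Nat.log 2 N + 1), (2 : ℝ) ^ i ≤ 2 * η * (2 * N) :=
        mul_le_mul_of_nonneg_left h3 (by positivity)
    _ = 4 * η * N := by ring

end Pool.Agent.TH463.UQ
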