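import Pool.Agent.TH463.UQ.Point

/-!
The Gibbs inequality and the entropy of an invariant measure.
-/

set_option autoImplicit false

open Finset Filter Topology MeasureTheory
open scoped ENNReal

namespace Pool.Agent.TH463.UQ

open Pool.Agent.H769R3 (X rep rep_nonneg rep_lt_one)
open Pool.Agent.TH463.UP (D D_lt D_add measurable_D)

/-- the cylinders -/
def cyl (p L s : ℕ) : Set X := {x | D p L x = s}

lemma meas_cyl (p L s : ℕ) : MeasurableSet (cyl p L s) :=
  measurable_D p L (measurableSet_singleton s)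

lemma integral_D {p : ℕ} (hp : 2 ≤ p) (μ : Measure X) [IsFiniteMeasure μ] (L : ℕ) (F : ℕ → ℝ) :
    ∫ x, F (D p L x) ∂μ = ∑ s ∈ range (p ^ L), μ.real (cyl p L s) * F s := by
  classical
  have h1 : ∀ x : X, F (D p L x) = ∑ s ∈ range (p ^ L), (cyl p L s).indicator (fun _ => F s) x := by
    intro x
    rw [sum_eq_single (D p L x)]
    · rw [Set.indicator_of_mem]
      exact rfl
    · intro s _ hs
      rw [Set.indicator_of_notMem]
      intro h
      exact hs (h : D p L x = s).symm
    · intro h
      exact absurd (mem_range.2 (D_lt hp L x)) h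
  simp_rw [h1]
  rw [integral_finsetSum _ fun s _ => (integrable_const _).indicator (meas_cyl p L s)]
  apply sum_congr rfl
  intro s _
  rw [integral_indicator_const _ (meas_cyl p L s), smul_eq_mul]

lemma sum_cyl {p : ℕ} (hp : 2 ≤ p) (μ : Measure X) [IsProbabilityMeasure μ] (L : ℕ) :
    ∑ s ∈ range (p ^ L), μ.real (cyl p L s) = 1 := by
  have h1 := integral_D hp μ L (fun _ => (1 : ℝ))
  simp only [mul_one, integral_const, smul_eq_mul] at h1
  rw [← h1]
  simp

/-- the entropy of the first `L` digits -/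
noncomputable def Hn (p : ℕ) (μ : Measure X) (L : ℕ) : ℝ :=
  ∑ s ∈ range (p ^ L), Real.negMulLog (μ.real (cyl p L s))

lemma Hn_nonneg (p : ℕ) (μ : Measure X) [IsProbabilityMeasure μ] (L : ℕ) : 0 ≤ Hn p μ L :=
  sum_nonneg fun _ _ => Real.negMulLog_nonneg measureReal_nonneg measureReal_le_one

/-- **The Gibbs inequality.** -/
theorem gibbs {p : ℕ} (hp : 2 ≤ p) (μ : Measure X) [IsProbabilityMeasure μ] (L : ℕ) {Ψ : X → ℝ}
    (hΨ : Integrable Ψ μ) {C : ℝ} (hC : 0 < C)
    (h : Z p L (fun x => ENNReal.ofReal (Real.exp (Ψ x))) ≤ ENNReal.ofReal C) :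
    ∫ x, Ψ x ∂μ + Hn p μ L ≤ Real.log C := by
  classical
  set Q : ℕ → ℝ≥0∞ := fun s => ⨆ x : X, ⨆ _ : D p L x = s, ENNReal.ofReal (Real.exp (Ψ x)) with hQ
  have hQsum : ∑ s ∈ range (p ^ L), Q s ≤ ENNReal.ofReal C := h
  have hQfin : ∀ s ∈ range (p ^ L), Q s ≠ ⊤ := by
    intro s hs
    have h1 : Q s ≤ ∑ s ∈ range (p ^ L), Q s := single_le_sum (fun _ _ => zero_le) hs
    exact ((h1.trans hQsum).trans_lt ENNReal.ofReal_lt_top).ne
  set q : ℕ → ℝ := fun s => (Q s).toReal with hq
  have hqsum : ∑ s ∈ range (p ^ L), q s ≤ C := by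
    rw [hq, ← ENNReal.toReal_sum hQfin]
    exact ENNReal.toReal_le_of_le_ofReal hC.le hQsum
  have hle : ∀ x, Real.exp (Ψ x) ≤ q (D p L x) := by
    intro x
    have h1 : ENNReal.ofReal (Real.exp (Ψ x)) ≤ Q (D p L x) :=
      le_iSup₂ (f := fun (y : X) (_ : D p L y = D p L x) => ENNReal.ofReal (Real.exp (Ψ y))) x rfl
    have h2 := ENNReal.toReal_mono (hQfin _ (mem_range.2 (D_lt hp L x))) h1
    rwa [ENNReal.toReal_ofReal (Real.exp_pos _).le] at h2
  have hint : ∫ x, Ψ x ∂μ ≤ ∑ s ∈ range (p ^ L), μ.real (cyl p L s) * Real.log (q s) := by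
    rw [← integral_D hp μ L]
    apply integral_mono hΨ
    · have h1 : ∀ x : X, Real.log (q (D p L x)) =
          ∑ s ∈ range (p ^ L), (cyl p L s).indicator (fun _ => Real.log (q s)) x := by
        intro x
        rw [sum_eq_single (D p L x)]
        · rw [Set.indicator_of_mem]
          exact rfl
        · intro s _ hs
          rw [Set.indicator_of_notMem]
          intro h
          exact hs (h : D p L x = s).symm
        · intro h
          exact absurd (mem_range.2 (D_lt hp L x)) h
      simp_rw [h1]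
      exact integrable_finsetSum _ fun s _ => (integrable_const _).indicator (meas_cyl p L s)
    · intro x
      simp only
      rw [← Real.log_exp (Ψ x)]
      exact Real.log_le_log (Real.exp_pos _) (hle x)
  have hterm : ∀ s ∈ range (p ^ L), μ.real (cyl p L s) * Real.log (q s) +
      Real.negMulLog (μ.real (cyl p L s)) ≤
      μ.real (cyl p L s) * Real.log C + (q s / C - μ.real (cyl p L s)) := by
    intro s _
    set m := μ.real (cyl p L s) with hm
    have hm0 : 0 ≤ m := measureReal_nonneg
    have hq0 : 0 ≤ q s := ENNReal.toReal_nonneg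
    rcases hm0.eq_or_lt with h0 | h0
    · rw [← h0]
      simp only [zero_mul, Real.negMulLog_zero, zero_add, sub_zero]
      positivity
    · have hne : (cyl p L s).Nonempty := by
        by_contra hcon
        rw [Set.not_nonempty_iff_eq_empty] at hcon
        rw [hm, hcon] at h0
        simp at h0
      obtain ⟨x, hx⟩ := hne
      have hqpos : 0 < q s := by
        have h1 := hle x
        have h2 : D p L x = s := hx
        rw [h2] at h1
        exact (Real.exp_pos _).trans_le h1
      have h1 := Real.log_le_sub_one_of_pos (show 0 < q s / (m * C) by positivity)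
      rw [Real.log_div hqpos.ne' (by positivity), Real.log_mul h0.ne' hC.ne'] at h1
      have h2 := mul_le_mul_of_nonneg_left h1 hm0
      have h3 : m * (q s / (m * C) - 1) = q s / C - m := by
        field_simp
      rw [h3] at h2
      unfold Real.negMulLog
      linarith
  have hsum := sum_le_sum hterm
  rw [sum_add_distrib, sum_add_distrib, ← sum_mul, sum_cyl hp, sum_sub_distrib, ← sum_div,
    sum_cyl hp] at hsum
  have h5 : (∑ s ∈ range (p ^ L), q s) / C ≤ 1 := by
    rw [div_le_one hC]
    exact hqsum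
  unfold Hn
  linarith

/-- the entropy per digit -/
noncomputable def ent (p : ℕ) (μ : Measure X) : ℝ := ⨅ n : ℕ, Hn p μ (n + 1) / ((n : ℝ) + 1)

lemma bdd (p : ℕ) (μ : Measure X) [IsProbabilityMeasure μ] :
    BddBelow (Set.range fun n : ℕ => Hn p μ (n + 1) / ((n : ℝ) + 1)) := by
  refine ⟨0, ?_⟩
  rintro _ ⟨n, rfl⟩
  have := Hn_nonneg p μ (n + 1)
  simp only
  positivity

lemma ent_le (p : ℕ) (μ : Measure X) [IsProbabilityMeasure μ] {L : ℕ} (hL : 1 ≤ L) :
    ent p μ * L ≤ Hn p μ L := by
  obtain ⟨n, rfl⟩ : ∃ n, L = n + 1 := ⟨L - 1, by omega⟩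
  have h1 : ent p μ ≤ Hn p μ (n + 1) / ((n : ℝ) + 1) := ciInf_le (bdd p μ) n
  rw [le_div_iff₀ (by positivity)] at h1
  push_cast
  exact h1

lemma Hn_zero {p : ℕ} (μ : Measure X) [IsProbabilityMeasure μ] : Hn p μ 0 = 0 := by
  unfold Hn
  rw [pow_zero, sum_range_one]
  have h1 : cyl p 0 0 = Set.univ := by
    ext x
    simp only [Set.mem_univ, iff_true]
    change D p 0 x = 0
    unfold D
    rw [pow_zero, one_mul]
    exact Nat.floor_eq_zero.2 (rep_lt_one x)
  rw [h1]
  simp

/-- a small increment of the entropy -/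
lemma exists_incr (p : ℕ) (μ : Measure X) [IsProbabilityMeasure μ] {ε : ℝ} (hε : 0 < ε) :
    ∃ k : ℕ, Hn p μ (k + 1) - Hn p μ k ≤ ent p μ + ε := by
  by_contra hcon
  push Not at hcon
  have h1 : ∀ n : ℕ, (ent p μ + ε) * n ≤ Hn p μ n := by
    intro n
    induction n with
    | zero => rw [Hn_zero]; simp
    | succ n ih =>
      have := hcon n
      push_cast
      linarith
  have h2 : ent p μ + ε ≤ ent p μ := by
    apply le_ciInf
    intro n
    rw [le_div_iff₀ (by positivity)]
    have := h1 (n + 1)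
    push_cast at this
    exact this
  linarith

/-- the weights with rational values -/
noncomputable def wt (p M : ℕ) (l : List ℕ) (s : ℕ) : ℝ := ((l.getD s 0 : ℕ) + 1) / ((M : ℝ) + p)

/-- the preimage of a cylinder -/
lemma cyl_preimage {p : ℕ} (hp : 2 ≤ p) {μ : Measure X} [IsProbabilityMeasure μ]
    (hμ : MeasurePreserving (fun x : X => p • x) μ μ) (k s : ℕ) (hs : s < p ^ k) :
    ∑ d ∈ range p, μ.real (cyl p (k + 1) (d * p ^ k + s)) = μ.real (cyl p k s) := by
  classical
  have h1 : μ.real ((fun x : X => p • x) ⁻¹' (cyl p k s)) = μ.real (cyl p k s) := by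
    rw [measureReal_def, measureReal_def, hμ.measure_preimage (meas_cyl p k s).nullMeasurableSet]
  rw [← h1]
  have h2 : (fun x : X => p • x) ⁻¹' (cyl p k s) = ⋃ d ∈ range p, cyl p (k + 1) (d * p ^ k + s) := by
    ext x
    simp only [Set.mem_preimage, Set.mem_iUnion]
    constructor
    · intro hx
      have hx' : D p k ((p ^ 1 : ℕ) • x) = s := by rw [pow_one]; exact hx
      refine ⟨D p 1 x, ?_, ?_⟩
      · have := D_lt hp 1 x
        rw [pow_one] at this
        exact mem_range.2 this
      · change D p (k + 1) x = _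
        rw [add_comm k 1, D_add, hx']
    · rintro ⟨d, _, hx⟩
      have hx' : D p (1 + k) x = d * p ^ k + s := by rw [add_comm 1 k]; exact hx
      have h3 := (split hp hx').2
      rw [pow_one, mul_comm, Nat.mul_add_mod, Nat.mod_eq_of_lt hs] at h3
      exact h3
  rw [h2, measureReal_biUnion_finset]
  · intro d hd d' hd' hne
    rw [Function.onFun, Set.disjoint_left]
    intro x hx hx'
    have h3 : d * p ^ k + s = d' * p ^ k + s := by
      have e1 : D p (k + 1) x = _ := hx
      have e2 : D p (k + 1) x = _ := hx'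
      rw [← e1, ← e2]
    have h4 : d * p ^ k = d' * p ^ k := by omega
    exact hne (Nat.eq_of_mul_eq_mul_right (by positivity) h4)
  · intro d _
    exact meas_cyl p _ _

/-- good weights -/
theorem exists_weight {p : ℕ} (hp : 2 ≤ p) {μ : Measure X} [IsProbabilityMeasure μ]
    (hμ : MeasurePreserving (fun x : X => p • x) μ μ) {ε : ℝ} (hε : 0 < ε) :
    ∃ (k M : ℕ) (l : List ℕ), Pos (wt p M l) ∧ Norm p k (wt p M l) ∧
      ∫ x, -Real.log (wt p M l (D p (k + 1) x)) ∂μ ≤ ent p μ + 2 * ε := by
  classical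
  obtain ⟨k, hk⟩ := exists_incr p μ hε
  have hp0 : (0 : ℝ) < p := by
    have : 0 < p := by omega
    exact_mod_cast this
  obtain ⟨M, hM⟩ := exists_nat_gt ((p : ℝ) / ε)
  have hM0 : (0 : ℝ) < M := lt_trans (by positivity) hM
  have hMε : (p : ℝ) / M ≤ ε := by
    rw [div_le_iff₀ hM0]
    rw [div_lt_iff₀ hε] at hM
    linarith
  set m1 : ℕ → ℝ := fun s => μ.real (cyl p (k + 1) s) with hm1
  set m0 : ℕ → ℝ := fun s => μ.real (cyl p k s) with hm0
  have hm1n : ∀ s, 0 ≤ m1 s := fun s => measureReal_nonneg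
  have hm0n : ∀ s, 0 ≤ m0 s := fun s => measureReal_nonneg
  have hpk : 0 < p ^ k := by positivity
  have hinv : ∀ s < p ^ k, ∑ d ∈ range p, m1 (d * p ^ k + s) = m0 s := fun s hs =>
    cyl_preimage hp hμ k s hs
  have hmle : ∀ s < p ^ (k + 1), m1 s ≤ m0 (s % p ^ k) := by
    intro s hs
    have h1 : s % p ^ k < p ^ k := Nat.mod_lt _ hpk
    rw [← hinv _ h1]
    have h2 : s / p ^ k ∈ range p := by
      rw [mem_range]
      apply Nat.div_lt_of_lt_mul
      rwa [← pow_succ]
    have h3 := single_le_sum (f := fun d => m1 (d * p ^ k + s % p ^ k)) (fun d _ => hm1n _) h2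
    rwa [Nat.div_add_mod' s (p ^ k)] at h3
  set w0 : ℕ → ℝ := fun s => m1 s / m0 (s % p ^ k) with hw0
  have hw0n : ∀ s, 0 ≤ w0 s := fun s => div_nonneg (hm1n _) (hm0n _)
  have hw01 : ∀ s < p ^ (k + 1), w0 s ≤ 1 := by
    intro s hs
    exact div_le_one_of_le₀ (hmle s hs) (hm0n _)
  set l : List ℕ := (List.range (p ^ (k + 1))).map fun s => ⌊(M : ℝ) * w0 s⌋₊ with hl
  have hget : ∀ s < p ^ (k + 1), l.getD s 0 = ⌊(M : ℝ) * w0 s⌋₊ := by
    intro s hs
    rw [hl, List.getD_eq_getElem?_getD, List.getElem?_map, List.getElem?_range hs]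
    rfl
  have hget2 : ∀ s, p ^ (k + 1) ≤ s → l.getD s 0 = 0 := by
    intro s hs
    rw [hl, List.getD_eq_default]
    simpa using hs
  have hden : (0 : ℝ) < (M : ℝ) + p := by positivity
  have hpR : (2 : ℝ) ≤ p := by exact_mod_cast hp
  refine ⟨k, M, l, ?_, ?_, ?_⟩
  · intro s
    unfold wt
    refine ⟨by positivity, ?_⟩
    rw [div_le_one hden]
    rcases lt_or_ge s (p ^ (k + 1)) with hs | hs
    · rw [hget s hs]
      have h1 : (⌊(M : ℝ) * w0 s⌋₊ : ℝ) ≤ M * w0 s := Nat.floor_le (mul_nonneg hM0.le (hw0n s))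
      have h2 : (M : ℝ) * w0 s ≤ M * 1 := mul_le_mul_of_nonneg_left (hw01 s hs) hM0.le
      linarith
    · rw [hget2 s hs]
      push_cast
      linarith
  · refine ⟨fun s => by unfold wt; positivity, fun s hs => ?_⟩
    unfold wt
    rw [← sum_div, div_le_one hden, sum_add_distrib, sum_const, card_range, nsmul_eq_mul, mul_one]
    have h1 : ∀ d ∈ range p, ((l.getD (d * p ^ k + s) 0 : ℕ) : ℝ) ≤ M * (m1 (d * p ^ k + s) / m0 s) := by
      intro d hd
      have hlt : d * p ^ k + s < p ^ (k + 1) := by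
        have hd' := mem_range.1 hd
        calc d * p ^ k + s < d * p ^ k + p ^ k := by omega
          _ = (d + 1) * p ^ k := by ring
          _ ≤ p * p ^ k := Nat.mul_le_mul_right _ hd'
          _ = p ^ (k + 1) := by ring
      rw [hget _ hlt]
      refine (Nat.floor_le (mul_nonneg hM0.le (hw0n _))).trans (le_of_eq ?_)
      rw [hw0]
      simp only
      have e : (d * p ^ k + s) % p ^ k = s := by
        rw [mul_comm, Nat.mul_add_mod, Nat.mod_eq_of_lt hs]
      rw [e]
    have h2 : ∑ d ∈ range p, ((l.getD (d * p ^ k + s) 0 : ℕ) : ℝ) ≤ M := by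
      refine (sum_le_sum h1).trans ?_
      rw [← mul_sum, ← sum_div, hinv s hs]
      calc (M : ℝ) * (m0 s / m0 s) ≤ M * 1 := mul_le_mul_of_nonneg_left (div_self_le_one _) hM0.le
        _ = M := mul_one _
    linarith
  · rw [integral_D hp μ (k + 1) (fun s => -Real.log (wt p M l s))]
    have hterm : ∀ s ∈ range (p ^ (k + 1)), m1 s * (-Real.log (wt p M l s)) ≤
        Real.negMulLog (m1 s) + m1 s * Real.log (m0 (s % p ^ k)) + m1 s * (p / M) := by
      intro s hs
      have hs' := mem_range.1 hs
      rcases (hm1n s).eq_or_lt with h0 | h0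
      · rw [← h0]
        simp
      · have h0' : 0 < m0 (s % p ^ k) := h0.trans_le (hmle s hs')
        have hw0p : 0 < w0 s := div_pos h0 h0'
        have h1 : M * w0 s / (M + p) ≤ wt p M l s := by
          unfold wt
          rw [hget s hs']
          apply div_le_div_of_nonneg_right _ hden.le
          exact (Nat.lt_floor_add_one _).le
        have h2 := Real.log_le_log (by positivity) h1
        have h3 : Real.log (M * w0 s / (M + p)) = Real.log (w0 s) - Real.log (1 + p / M) := by
          have e : (M : ℝ) * w0 s / (M + p) = w0 s / (1 + p / M) := by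
            field_simp
          rw [e, Real.log_div hw0p.ne' (by positivity)]
        have h4 : Real.log (1 + p / M) ≤ p / M := by
          have := Real.log_le_sub_one_of_pos (show (0 : ℝ) < 1 + p / M by positivity)
          linarith
        have h5 : Real.log (w0 s) = Real.log (m1 s) - Real.log (m0 (s % p ^ k)) :=
          Real.log_div h0.ne' h0'.ne'
        unfold Real.negMulLog
        have h6 : -Real.log (wt p M l s) ≤ -Real.log (m1 s) + Real.log (m0 (s % p ^ k)) + p / M := by
          linarith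
        have h7 := mul_le_mul_of_nonneg_left h6 h0.le
        linarith
    refine (sum_le_sum hterm).trans ?_
    rw [sum_add_distrib, sum_add_distrib, ← sum_mul]
    have e1 : ∑ s ∈ range (p ^ (k + 1)), m1 s = 1 := sum_cyl hp μ (k + 1)
    have e2 : ∑ s ∈ range (p ^ (k + 1)), m1 s * Real.log (m0 (s % p ^ k)) = -Hn p μ k := by
      rw [← integral_D hp μ (k + 1) (fun s => Real.log (m0 (s % p ^ k)))]
      have h1 : ∀ x : X, D p (k + 1) x % p ^ k = D p k (p • x) := by
        intro x
        have h2 := (split hp (show D p (1 + k) x = D p (k + 1) x by rw [add_comm])).2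
        rw [pow_one] at h2
        exact h2.symm
      simp_rw [h1]
      have h3 : ∫ x, Real.log (m0 (D p k (p • x))) ∂μ = ∫ x, Real.log (m0 (D p k x)) ∂μ := by
        conv_rhs => rw [← hμ.map_eq]
        rw [integral_map hμ.measurable.aemeasurable]
        have hmeas : Measurable fun x : X => Real.log (m0 (D p k x)) :=
          (measurable_from_nat (f := fun s => Real.log (m0 s))).comp (measurable_D p k)
        exact hmeas.aestronglyMeasurable
      rw [h3, integral_D hp μ k (fun s => Real.log (m0 s))]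
      unfold Hn
      rw [← sum_neg_distrib]
      apply sum_congr rfl
      intro s _
      unfold Real.negMulLog
      ring
    rw [e1, e2]
    have e3 : ∑ s ∈ range (p ^ (k + 1)), Real.negMulLog (m1 s) = Hn p μ (k + 1) := rfl
    rw [e3]
    linarith

end Pool.Agent.TH463.UQ
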