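import Pool.Agent.TH463.UQ.Exc
import Pool.Agent.TH463.UP.Point

/-!
The pressure bound.
-/

set_option autoImplicit false

open Finset Filter Topology
open scoped ENNReal

namespace Pool.Agent.TH463.UQ

open Pool.Agent.H769R3 (X rep coe_rep norm_coe_le coe_int_zero fourier_norm fourier_lip)
open Pool.Agent.TH463.UP (D D_lt D_add Appr BadPair Near nx lt_nx)

/-- the sum of a character along an orbit -/
noncomputable def Su (p h L : ℕ) (x : X) : ℂ :=
  ∑ j ∈ range L, (fourier (h : ℤ) ((p ^ j : ℕ) • x) : ℂ)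

lemma Su_add (p h ℓ m : ℕ) (x : X) : Su p h (ℓ + m) x = Su p h ℓ x + Su p h m ((p ^ ℓ : ℕ) • x) := by
  unfold Su
  rw [sum_range_add]
  congr 1
  apply sum_congr rfl
  intro j _
  rw [← mul_smul, ← pow_add, add_comm ℓ j]

lemma norm_Su_le (p h L : ℕ) (x : X) : ‖Su p h L x‖ ≤ L := by
  unfold Su
  refine (norm_sum_le _ _).trans ?_
  refine (sum_le_sum (fun j _ => (fourier_norm _ _).le)).trans ?_
  simp

/-- the trichotomy: near a point of small order, a good pair, or a bad word -/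
lemma tri {p : ℕ} (hp : 2 ≤ p) {δ : ℝ} (hδ : 0 < δ) {β₀ N h : ℕ}
    (hδβ : 2 * Real.pi ≤ δ * β₀) (hN : h < N) (x : X) :
    x ∈ Near (p ^ β₀) N ∨ (∃ β ∈ Finset.Ico β₀ N, ‖Su p h β x‖ ≤ 2 * δ * β) ∨
      ∃ β ∈ Finset.Ico β₀ N, D p (2 * β + 2) x ∈ BW p δ β N h := by
  have hN0 : 0 < N := by omega
  have hp1 : 1 < p := by omega
  have hpR : (2 : ℝ) ≤ p := by exact_mod_cast hp
  have hNR : (0 : ℝ) < (N : ℝ) + 1 := by positivity
  obtain ⟨ρ, hρ1, hρ2⟩ := Real.exists_rat_abs_sub_le_and_den_le (rep x) hN0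
  have hden : (1 : ℝ) ≤ ρ.den := by exact_mod_cast ρ.den_pos
  have hclose : ‖x - ((ρ : ℝ) : X)‖ ≤ |rep x - ρ| := by
    have e : x - ((ρ : ℝ) : X) = ((rep x - ρ : ℝ) : X) := by
      rw [AddCircle.coe_sub, coe_rep]
    rw [e]
    exact norm_coe_le _
  by_cases hsmall : ρ.den < p ^ β₀
  · left
    unfold Near
    refine Metric.mem_cthickening_of_dist_le x ((ρ : ℝ) : X) _ _ ?_ ?_
    · refine ⟨ρ.den, ρ.den_pos, hsmall, ?_⟩
      rw [← AddCircle.coe_nsmul, nsmul_eq_mul]
      have e : (ρ.den : ℝ) * (ρ : ℝ) = ((ρ.num : ℤ) : ℝ) := by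
        have := Rat.den_mul_eq_num ρ
        exact_mod_cast this
      rw [e]
      exact coe_int_zero _
    · rw [dist_eq_norm]
      refine hclose.trans (hρ1.trans ?_)
      apply one_div_le_one_div_of_le hNR
      nlinarith
  · rw [not_lt] at hsmall
    right
    set β := Nat.log p ρ.den with hβ
    have hb1 : p ^ β ≤ ρ.den := Nat.pow_log_le_self p ρ.den_nz
    have hb2 : ρ.den < p ^ (β + 1) := Nat.lt_pow_succ_log_self hp1 _
    have hb3 : β₀ ≤ β := (Nat.le_log_iff_pow_le hp1 ρ.den_nz).2 hsmall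
    have hb4 : β < N := (Nat.lt_pow_self hp1).trans_le (hb1.trans hρ2)
    by_cases hbad : BadPair p δ β h ρ
    · right
      exact ⟨β, mem_Ico.2 ⟨hb3, hb4⟩, ρ, ⟨hb1, hb2, hρ2, x, rfl, hρ1⟩, hbad⟩
    · left
      refine ⟨β, mem_Ico.2 ⟨hb3, hb4⟩, ?_⟩
      unfold BadPair at hbad
      rw [not_lt] at hbad
      unfold Su
      have hdiff : ‖∑ j ∈ range β, (fourier (h : ℤ) ((p ^ j : ℕ) • x) : ℂ) -
          ∑ j ∈ range β, (fourier (h : ℤ) ((p ^ j : ℕ) • ((ρ : ℝ) : X)) : ℂ)‖ ≤ 2 * Real.pi := by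
        rw [← sum_sub_distrib]
        refine (norm_sum_le _ _).trans ?_
        have hterm : ∀ j ∈ range β, ‖(fourier (h : ℤ) ((p ^ j : ℕ) • x) : ℂ) -
            fourier (h : ℤ) ((p ^ j : ℕ) • ((ρ : ℝ) : X))‖ ≤
            (2 * Real.pi * h * |rep x - ρ|) * (p : ℝ) ^ j := by
          intro j _
          refine (fourier_lip _ _ _).trans ?_
          rw [← smul_sub]
          have h1 : ‖(p ^ j : ℕ) • (x - ((ρ : ℝ) : X))‖ ≤ (p : ℝ) ^ j * |rep x - ρ| := by
            refine norm_nsmul_le.trans ?_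
            push_cast
            exact mul_le_mul_of_nonneg_left hclose (by positivity)
          have h2 : |((h : ℤ) : ℝ)| = h := by simp
          rw [h2]
          calc 2 * Real.pi * h * ‖(p ^ j : ℕ) • (x - ((ρ : ℝ) : X))‖ ≤
                2 * Real.pi * h * ((p : ℝ) ^ j * |rep x - ρ|) :=
                mul_le_mul_of_nonneg_left h1 (by positivity)
            _ = _ := by ring
        refine (sum_le_sum hterm).trans ?_
        rw [← mul_sum]
        have h3 : ∑ j ∈ range β, (p : ℝ) ^ j ≤ (p : ℝ) ^ β := by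
          rw [geom_sum_eq (by linarith)]
          rw [div_le_iff₀ (by linarith)]
          have : (0 : ℝ) < (p : ℝ) ^ β := by positivity
          nlinarith
        have h4 : (h : ℝ) ≤ N + 1 := by
          have : (h : ℝ) < N := by exact_mod_cast hN
          linarith
        have h5 : (p : ℝ) ^ β ≤ ρ.den := by exact_mod_cast hb1
        calc 2 * Real.pi * h * |rep x - ρ| * ∑ j ∈ range β, (p : ℝ) ^ j ≤
              2 * Real.pi * h * |rep x - ρ| * (p : ℝ) ^ β :=
              mul_le_mul_of_nonneg_left h3 (by positivity)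
          _ ≤ 2 * Real.pi * (N + 1) * (1 / ((N + 1) * ρ.den)) * ρ.den := by
            apply mul_le_mul _ h5 (by positivity) (by positivity)
            apply mul_le_mul _ hρ1 (abs_nonneg _) (by positivity)
            exact mul_le_mul_of_nonneg_left h4 (by positivity)
          _ = 2 * Real.pi := by
            field_simp
      have htri : ‖∑ j ∈ range β, (fourier (h : ℤ) ((p ^ j : ℕ) • x) : ℂ)‖ ≤
          ‖∑ j ∈ range β, (fourier (h : ℤ) ((p ^ j : ℕ) • x) : ℂ) -
          ∑ j ∈ range β, (fourier (h : ℤ) ((p ^ j : ℕ) • ((ρ : ℝ) : X)) : ℂ)‖ +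
          ‖∑ j ∈ range β, (fourier (h : ℤ) ((p ^ j : ℕ) • ((ρ : ℝ) : X)) : ℂ)‖ := by
        refine le_trans (le_of_eq ?_) (norm_add_le _ _)
        congr 1
        ring
      have hβR : (β₀ : ℝ) ≤ β := by exact_mod_cast hb3
      have h6 : δ * β₀ ≤ δ * β := mul_le_mul_of_nonneg_left hβR hδ.le
      linarith

/-- the gain -/
noncomputable def kap (δ : ℝ) : ℝ := δ ^ 2 / 64

/-- the penalty near points of small order -/
noncomputable def AA (p : ℕ) (δ : ℝ) : ℝ := kap δ + Real.log (4 * p)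

open Classical in
/-- the potential -/
noncomputable def u (p k : ℕ) (w : ℕ → ℝ) (δ ε : ℝ) (Q N : ℕ) (x : X) : ℝ :=
  -Real.log (w (D p (k + 1) x)) + (ε + 2 * kap δ * δ) + AA p δ * (if x ∈ Near Q N then 1 else 0)

/-- the weights used for the potential -/
def Pos (w : ℕ → ℝ) : Prop := ∀ s, 0 < w s ∧ w s ≤ 1

lemma kap_pos {δ : ℝ} (hδ : 0 < δ) : 0 < kap δ := by unfold kap; positivity

lemma AA_pos {p : ℕ} (hp : 2 ≤ p) {δ : ℝ} (hδ : 0 < δ) : 0 < AA p δ := by
  unfold AA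
  have h1 := kap_pos hδ
  have h2 : (0 : ℝ) ≤ Real.log (4 * p) := by
    apply Real.log_nonneg
    have : (2 : ℝ) ≤ p := by exact_mod_cast hp
    linarith
  linarith

lemma nlog_nonneg {w : ℕ → ℝ} (hw : Pos w) (s : ℕ) : 0 ≤ -Real.log (w s) := by
  have := Real.log_nonpos (hw s).1.le (hw s).2
  linarith

section

variable {p k : ℕ} {w : ℕ → ℝ} {δ ε : ℝ} {Q N : ℕ}

lemma u_ge (hp : 2 ≤ p) (hδ : 0 < δ) (x : X) :
    -Real.log (w (D p (k + 1) x)) + (ε + 2 * kap δ * δ) ≤ u p k w δ ε Q N x := by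
  unfold u
  have h1 := AA_pos hp hδ
  split_ifs
  · linarith
  · linarith

lemma u_nonneg (hp : 2 ≤ p) (hw : Pos w) (hδ : 0 < δ) (hε : 0 ≤ ε) (x : X) :
    0 ≤ u p k w δ ε Q N x := by
  have h1 := u_ge (k := k) (w := w) (ε := ε) (Q := Q) (N := N) hp hδ x
  have h2 := nlog_nonneg hw (D p (k + 1) x)
  have h3 : 0 ≤ 2 * kap δ * δ := by
    have := kap_pos hδ
    positivity
  linarith

lemma u_near (hw : Pos w) (hδ : 0 < δ) (hε : 0 ≤ ε) {x : X} (hx : x ∈ Near Q N) :
    AA p δ ≤ u p k w δ ε Q N x := by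
  unfold u
  rw [if_pos hx]
  have h2 := nlog_nonneg hw (D p (k + 1) x)
  have h3 : 0 ≤ 2 * kap δ * δ := by
    have := kap_pos hδ
    positivity
  linarith

end

/-- the potential along the orbit -/
noncomputable def Psi (p k : ℕ) (w : ℕ → ℝ) (δ ε : ℝ) (Q N h L : ℕ) (x : X) : ℝ :=
  kap δ * ‖Su p h L x‖ - ∑ t ∈ range L, u p k w δ ε Q N ((p ^ t : ℕ) • x)

/-- the weight of the orbit -/
noncomputable def EX (p k : ℕ) (w : ℕ → ℝ) (δ ε : ℝ) (Q N h L : ℕ) (x : X) : ℝ≥0∞ :=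
  ENNReal.ofReal (Real.exp (Psi p k w δ ε Q N h L x))

section

variable {p k : ℕ} {w : ℕ → ℝ} {δ ε : ℝ} {Q N h : ℕ}

lemma Psi_add (hδ : 0 < δ) (ℓ m : ℕ) (x : X) : Psi p k w δ ε Q N h (ℓ + m) x ≤
    (kap δ * ‖Su p h ℓ x‖ - ∑ t ∈ range ℓ, u p k w δ ε Q N ((p ^ t : ℕ) • x)) +
      Psi p k w δ ε Q N h m ((p ^ ℓ : ℕ) • x) := by
  unfold Psi
  rw [Su_add, sum_range_add]
  have h1 := norm_add_le (Su p h ℓ x) (Su p h m ((p ^ ℓ : ℕ) • x))
  have h2 := mul_le_mul_of_nonneg_left h1 (kap_pos hδ).le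
  have h3 : ∑ t ∈ range m, u p k w δ ε Q N ((p ^ (ℓ + t) : ℕ) • x) =
      ∑ t ∈ range m, u p k w δ ε Q N ((p ^ t : ℕ) • ((p ^ ℓ : ℕ) • x)) := by
    apply sum_congr rfl
    intro t _
    rw [← mul_smul, ← pow_add, add_comm ℓ t]
  rw [h3]
  linarith

lemma W_eq (hw : Pos w) (R : ℕ) (x : X) : W p k w R x =
    ENNReal.ofReal (Real.exp (∑ t ∈ range R, Real.log (w (D p (k + 1) ((p ^ t : ℕ) • x))))) := by
  unfold W
  rw [← ENNReal.ofReal_prod_of_nonneg (fun t _ => (hw _).1.le), Real.exp_sum]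
  congr 1
  apply prod_congr rfl
  intro t _
  rw [Real.exp_log (hw _).1]

/-- near a point of small order -/
lemma EX_near (hw : Pos w) (hδ : 0 < δ) (hε : 0 ≤ ε) {x : X} (hx : x ∈ Near Q N) (m : ℕ) :
    EX p k w δ ε Q N h (1 + m) x ≤
      ENNReal.ofReal (Real.exp (kap δ - AA p δ)) * EX p k w δ ε Q N h m ((p ^ 1 : ℕ) • x) := by
  unfold EX
  rw [← ENNReal.ofReal_mul (Real.exp_pos _).le, ← Real.exp_add]
  apply ENNReal.ofReal_le_ofReal
  apply Real.exp_le_exp.2
  refine (Psi_add hδ 1 m x).trans ?_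
  have h1 := norm_Su_le p h 1 x
  have h2 := u_near (p := p) (k := k) hw hδ hε hx
  rw [sum_range_one, pow_zero, one_smul]
  have h3 := mul_le_mul_of_nonneg_left h1 (kap_pos hδ).le
  push_cast at h3
  linarith

/-- a good pair -/
lemma EX_good (hp : 2 ≤ p) (hw : Pos w) (hδ : 0 < δ) {x : X} {β : ℕ}
    (hx : ‖Su p h β x‖ ≤ 2 * δ * β) (m : ℕ) :
    EX p k w δ ε Q N h (β + m) x ≤
      (ENNReal.ofReal (Real.exp (-ε * β)) * W p k w β x) *
        EX p k w δ ε Q N h m ((p ^ β : ℕ) • x) := by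
  unfold EX
  rw [W_eq hw, ← ENNReal.ofReal_mul (Real.exp_pos _).le, ← ENNReal.ofReal_mul (by positivity),
    ← Real.exp_add, ← Real.exp_add]
  apply ENNReal.ofReal_le_ofReal
  apply Real.exp_le_exp.2
  refine (Psi_add hδ β m x).trans ?_
  have h1 : ∑ t ∈ range β, (-Real.log (w (D p (k + 1) ((p ^ t : ℕ) • x))) + (ε + 2 * kap δ * δ)) ≤
      ∑ t ∈ range β, u p k w δ ε Q N ((p ^ t : ℕ) • x) := sum_le_sum fun t _ => u_ge hp hδ _
  rw [sum_add_distrib, sum_neg_distrib, sum_const, card_range, nsmul_eq_mul] at h1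
  have h3 := mul_le_mul_of_nonneg_left hx (kap_pos hδ).le
  have h4 : kap δ * (2 * δ * β) = β * (2 * kap δ * δ) := by ring
  have h5 : (β : ℝ) * (ε + 2 * kap δ * δ) = β * ε + β * (2 * kap δ * δ) := by ring
  have h6 : -ε * (β : ℝ) = -(β * ε) := by ring
  rw [h6]
  linarith

/-- a bad word -/
lemma EX_bad (hp : 2 ≤ p) (hw : Pos w) (hδ : 0 < δ) (hε : 0 ≤ ε) {x : X} {β : ℕ}
    (hx : D p (2 * β + 2) x ∈ BW p δ β N h) (m : ℕ) :
    EX p k w δ ε Q N h (2 * β + 2 + m) x ≤
      (ENNReal.ofReal (Real.exp (kap δ * (2 * β + 2))) * WB p k w δ β N h x) *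
        EX p k w δ ε Q N h m ((p ^ (2 * β + 2) : ℕ) • x) := by
  unfold EX WB
  rw [if_pos hx, W_eq hw, ← ENNReal.ofReal_mul (Real.exp_pos _).le,
    ← ENNReal.ofReal_mul (by positivity), ← Real.exp_add, ← Real.exp_add]
  apply ENNReal.ofReal_le_ofReal
  apply Real.exp_le_exp.2
  refine (Psi_add hδ (2 * β + 2) m x).trans ?_
  have h1 : ∑ t ∈ range (2 * β + 2), (-Real.log (w (D p (k + 1) ((p ^ t : ℕ) • x))) +
      (ε + 2 * kap δ * δ)) ≤
      ∑ t ∈ range (2 * β + 2), u p k w δ ε Q N ((p ^ t : ℕ) • x) := sum_le_sum fun t _ => u_ge hp hδ _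
  rw [sum_add_distrib, sum_neg_distrib, sum_const, card_range, nsmul_eq_mul] at h1
  have h2 := norm_Su_le p h (2 * β + 2) x
  have h3 := mul_le_mul_of_nonneg_left h2 (kap_pos hδ).le
  have h4 : 0 ≤ ((2 * β + 2 : ℕ) : ℝ) * (ε + 2 * kap δ * δ) := by
    have := kap_pos hδ
    positivity
  push_cast at h3 h4 h1 ⊢
  linarith

end

lemma Z_mul' {p : ℕ} (hp : 2 ≤ p) {ℓ R L : ℕ} (hL : ℓ + R = L) {g g1 g2 : X → ℝ≥0∞}
    (h : ∀ x, g x ≤ g1 x * g2 ((p ^ ℓ : ℕ) • x)) : Z p L g ≤ Z p ℓ g1 * Z p R g2 := by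
  subst hL
  exact Z_mul hp h

lemma Z_smul_le {p R : ℕ} (c : ℝ≥0∞) (g : X → ℝ≥0∞) : Z p R (fun x => c * g x) ≤ c * Z p R g := by
  unfold Z
  rw [mul_sum]
  refine sum_le_sum fun s _ => iSup₂_le fun x hx => ?_
  exact mul_le_mul' le_rfl (le_iSup₂ (f := fun (x : X) (_ : D p R x = s) => g x) x hx)

lemma tail_sum {θ a : ℝ} (ha : 0 ≤ a) (hθ0 : 0 < θ) (hθ1 : θ < 1) {β₀ N : ℕ}
    (h : a * (θ ^ β₀ / (1 - θ)) ≤ 1 / 4) : ∑ β ∈ Finset.Ico β₀ N, ENNReal.ofReal (a * θ ^ β) ≤
      ENNReal.ofReal (1 / 4) := by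
  rw [← ENNReal.ofReal_sum_of_nonneg (fun β _ => by positivity)]
  apply ENNReal.ofReal_le_ofReal
  rw [← mul_sum]
  refine le_trans (mul_le_mul_of_nonneg_left ?_ ha) h
  refine le_trans ?_ (geom_tail hθ0 hθ1 β₀ N)
  apply sum_le_sum_of_subset_of_nonneg
  · intro β hβ
    rw [mem_Ico] at hβ ⊢
    omega
  · intro β _ _
    positivity

/-- the constant -/
noncomputable def C0 (p : ℕ) (δ : ℝ) (N : ℕ) : ℝ :=
  (p : ℝ) ^ (2 * N + 2) * Real.exp (kap δ * (2 * N + 2))

lemma C0_pos {p : ℕ} (hp : 2 ≤ p) (δ : ℝ) (N : ℕ) : 0 < C0 p δ N := by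
  unfold C0
  have : 0 < p := by omega
  have : (0 : ℝ) < p := by exact_mod_cast this
  positivity

/-- **The pressure bound.** -/
theorem pressure {p k : ℕ} (hp : 2 ≤ p) {w : ℕ → ℝ} (hw : Pos w) (hwn : Norm p k w) {δ ε : ℝ}
    (hδ : 0 < δ) (hε : 0 < ε) {β₀ N h : ℕ} (hβ : Level p k δ ε β₀) (hN : h < N)
    (hgood : h ∉ Exc p k w δ β₀ N) (L : ℕ) :
    Z p L (EX p k w δ ε (p ^ β₀) N h L) ≤ ENNReal.ofReal (C0 p δ N) := by
  obtain ⟨hβ1, hβ2, hβ3, hβ4⟩ := hβ
  have hp0 : (0 : ℝ) < p := by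
    have : 0 < p := by omega
    exact_mod_cast this
  have hp1 : (1 : ℝ) ≤ p := by
    have : 1 ≤ p := by omega
    exact_mod_cast this
  have hkap := kap_pos hδ
  induction L using Nat.strong_induction_on with
  | _ L ih =>
    by_cases hL : L ≤ 2 * N + 2
    · refine (Z_le_const (c := ENNReal.ofReal (Real.exp (kap δ * (2 * N + 2)))) fun x => ?_).trans ?_
      · unfold EX
        apply ENNReal.ofReal_le_ofReal
        apply Real.exp_le_exp.2
        unfold Psi
        have h1 : 0 ≤ ∑ t ∈ range L, u p k w δ ε (p ^ β₀) N ((p ^ t : ℕ) • x) :=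
          sum_nonneg fun t _ => u_nonneg hp hw hδ hε.le _
        have h2 := mul_le_mul_of_nonneg_left (norm_Su_le p h L x) hkap.le
        have h3 : (L : ℝ) ≤ 2 * N + 2 := by exact_mod_cast hL
        have h4 := mul_le_mul_of_nonneg_left h3 hkap.le
        linarith
      · unfold C0
        rw [ENNReal.ofReal_mul (by positivity), ENNReal.ofReal_pow hp0.le, ENNReal.ofReal_natCast]
        apply mul_le_mul' _ le_rfl
        apply pow_le_pow_right₀ _ hL
        exact_mod_cast (show 1 ≤ p by omega)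
    · rw [not_le] at hL
      set C : ℝ≥0∞ := ENNReal.ofReal (C0 p δ N) with hC
      set g1 : X → ℝ≥0∞ := fun x => ENNReal.ofReal (Real.exp (kap δ - AA p δ)) *
        EX p k w δ ε (p ^ β₀) N h (L - 1) ((p ^ 1 : ℕ) • x) with hg1
      set g2 : ℕ → X → ℝ≥0∞ := fun β x => (ENNReal.ofReal (Real.exp (-ε * β)) * W p k w β x) *
        EX p k w δ ε (p ^ β₀) N h (L - β) ((p ^ β : ℕ) • x) with hg2
      set g3 : ℕ → X → ℝ≥0∞ := fun β x => (ENNReal.ofReal (Real.exp (kap δ * (2 * β + 2))) *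
        WB p k w δ β N h x) *
        EX p k w δ ε (p ^ β₀) N h (L - (2 * β + 2)) ((p ^ (2 * β + 2) : ℕ) • x) with hg3
      have hpt : ∀ x, EX p k w δ ε (p ^ β₀) N h L x ≤
          (g1 x + ∑ β ∈ Finset.Ico β₀ N, g2 β x) + ∑ β ∈ Finset.Ico β₀ N, g3 β x := by
        intro x
        rcases tri hp hδ hβ2 hN x with hx | ⟨β, hβm, hx⟩ | ⟨β, hβm, hx⟩
        · have h1 := EX_near (p := p) (k := k) (h := h) hw hδ hε.le hx (L - 1)
          rw [Nat.add_sub_cancel' (by omega)] at h1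
          exact h1.trans (le_add_right (le_add_right le_rfl))
        · have hm := mem_Ico.1 hβm
          have h1 := EX_good (k := k) (ε := ε) (Q := p ^ β₀) (N := N) hp hw hδ hx (L - β)
          rw [Nat.add_sub_cancel' (by omega)] at h1
          refine h1.trans (le_add_right (le_add_left ?_))
          exact single_le_sum (f := fun β => g2 β x) (fun _ _ => zero_le) hβm
        · have hm := mem_Ico.1 hβm
          have h1 := EX_bad (k := k) (Q := p ^ β₀) hp hw hδ hε.le hx (L - (2 * β + 2))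
          rw [Nat.add_sub_cancel' (by omega)] at h1
          refine h1.trans (le_add_left ?_)
          exact single_le_sum (f := fun β => g3 β x) (fun _ _ => zero_le) hβm
      have hZ1 : Z p L g1 ≤ ENNReal.ofReal (1 / 4) * C := by
        refine (Z_mul' hp (show 1 + (L - 1) = L by omega)
          (g1 := fun _ => ENNReal.ofReal (Real.exp (kap δ - AA p δ)))
          (g2 := EX p k w δ ε (p ^ β₀) N h (L - 1)) fun x => le_rfl).trans ?_
        refine mul_le_mul' ?_ (ih (L - 1) (by omega))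
        refine (Z_le_const fun x => le_rfl).trans ?_
        rw [pow_one, ← ENNReal.ofReal_natCast, ← ENNReal.ofReal_mul (by positivity)]
        apply ENNReal.ofReal_le_ofReal
        unfold AA
        rw [sub_add_cancel_left, Real.exp_neg, Real.exp_log (by positivity)]
        apply le_of_eq
        field_simp
      have hZ2 : ∑ β ∈ Finset.Ico β₀ N, Z p L (g2 β) ≤ ENNReal.ofReal (1 / 4) * C := by
        have h1 : ∀ β ∈ Finset.Ico β₀ N, Z p L (g2 β) ≤
            ENNReal.ofReal ((p : ℝ) ^ k * Real.exp (-ε) ^ β) * C := by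
          intro β hβm
          have hm := mem_Ico.1 hβm
          refine (Z_mul' hp (show β + (L - β) = L by omega)
            (g1 := fun x => ENNReal.ofReal (Real.exp (-ε * β)) * W p k w β x)
            (g2 := EX p k w δ ε (p ^ β₀) N h (L - β)) fun x => le_rfl).trans ?_
          refine mul_le_mul' ?_ (ih (L - β) (by omega))
          refine (Z_smul_le _ _).trans ?_
          refine (mul_le_mul' le_rfl (Z_W hp hwn β)).trans (le_of_eq ?_)
          rw [mul_comm (-ε), Real.exp_nat_mul, ENNReal.ofReal_mul (by positivity),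
            ENNReal.ofReal_pow hp0.le, ENNReal.ofReal_natCast, mul_comm]
        refine (sum_le_sum h1).trans ?_
        rw [← sum_mul]
        exact mul_le_mul' (tail_sum (by positivity) (Real.exp_pos _)
          (Real.exp_lt_one_iff.2 (by linarith)) hβ3) le_rfl
      have hZ3 : ∑ β ∈ Finset.Ico β₀ N, Z p L (g3 β) ≤ ENNReal.ofReal (1 / 4) * C := by
        have h1 : ∀ β ∈ Finset.Ico β₀ N, Z p L (g3 β) ≤
            ENNReal.ofReal (Real.exp (δ ^ 2 / 32) * Real.exp (-(δ ^ 2 / 32)) ^ β) * C := by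
          intro β hβm
          have hm := mem_Ico.1 hβm
          refine (Z_mul' hp (show (2 * β + 2) + (L - (2 * β + 2)) = L by omega)
            (g1 := fun x => ENNReal.ofReal (Real.exp (kap δ * (2 * β + 2))) * WB p k w δ β N h x)
            (g2 := EX p k w δ ε (p ^ β₀) N h (L - (2 * β + 2))) fun x => le_rfl).trans ?_
          refine mul_le_mul' ?_ (ih (L - (2 * β + 2)) (by omega))
          refine (Z_smul_le _ _).trans ?_
          have h2 : Z p (2 * β + 2) (WB p k w δ β N h) ≤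
              ENNReal.ofReal (Real.exp (-(δ ^ 2 / 16) * β)) := by
            by_contra hcon
            rw [not_le] at hcon
            exact hgood ⟨β, hm.1, hcon⟩
          refine (mul_le_mul' le_rfl h2).trans (le_of_eq ?_)
          rw [← ENNReal.ofReal_mul (Real.exp_pos _).le, ← Real.exp_add, ← Real.exp_nat_mul,
            ← Real.exp_add]
          congr 2
          unfold kap
          ring
        refine (sum_le_sum h1).trans ?_
        rw [← sum_mul]
        refine mul_le_mul' (tail_sum (by positivity) (Real.exp_pos _)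
          (Real.exp_lt_one_iff.2 ?_) hβ4) le_rfl
        have : 0 < δ ^ 2 := by positivity
        linarith
      have htot := (Z_add (p := p) (R := L) hpt).trans (add_le_add
        ((Z_add (p := p) (R := L) fun x => le_rfl).trans (add_le_add hZ1
          ((Z_sum (p := p) (R := L) (Finset.Ico β₀ N) g2 fun x => le_rfl).trans hZ2)))
        ((Z_sum (p := p) (R := L) (Finset.Ico β₀ N) g3 fun x => le_rfl).trans hZ3))
      refine htot.trans ?_
      rw [← add_mul, ← add_mul, ← ENNReal.ofReal_add (by norm_num) (by norm_num),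
        ← ENNReal.ofReal_add (by norm_num) (by norm_num)]
      calc ENNReal.ofReal (1 / 4 + 1 / 4 + 1 / 4) * C ≤ 1 * C := by
            apply mul_le_mul' _ le_rfl
            rw [ENNReal.ofReal_le_one]
            norm_num
        _ = C := one_mul C

end Pool.Agent.TH463.UQ
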