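import Pool.Agent.TH463.UP.Digits

/-!
Partition functions over cylinders in base `p`.
-/

set_option autoImplicit false

open Finset
open scoped ENNReal

namespace Pool.Agent.TH463.UQ

open Pool.Agent.H769R3 (X)
open Pool.Agent.TH463.UP (D D_lt D_add)

/-- the partition function: sum over the cylinders of the suprema -/
noncomputable def Z (p R : ℕ) (g : X → ℝ≥0∞) : ℝ≥0∞ :=
  ∑ s ∈ range (p ^ R), ⨆ x : X, ⨆ _ : D p R x = s, g x

lemma Z_mono {p R : ℕ} {g g' : X → ℝ≥0∞} (h : ∀ x, g x ≤ g' x) : Z p R g ≤ Z p R g' :=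
  sum_le_sum fun _ _ => iSup₂_mono fun x _ => h x

lemma Z_sum {p R : ℕ} {ι : Type*} (I : Finset ι) (G : ι → X → ℝ≥0∞) {g : X → ℝ≥0∞}
    (h : ∀ x, g x ≤ ∑ i ∈ I, G i x) : Z p R g ≤ ∑ i ∈ I, Z p R (G i) := by
  unfold Z
  rw [sum_comm]
  refine sum_le_sum fun s _ => iSup₂_le fun x hx => (h x).trans ?_
  exact sum_le_sum fun i _ => le_iSup₂ (f := fun (x : X) (_ : D p R x = s) => G i x) x hx

lemma Z_add {p R : ℕ} {g g1 g2 : X → ℝ≥0∞} (h : ∀ x, g x ≤ g1 x + g2 x) :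
    Z p R g ≤ Z p R g1 + Z p R g2 := by
  unfold Z
  rw [← sum_add_distrib]
  refine sum_le_sum fun s _ => iSup₂_le fun x hx => (h x).trans ?_
  exact add_le_add (le_iSup₂ (f := fun (x : X) (_ : D p R x = s) => g1 x) x hx)
    (le_iSup₂ (f := fun (x : X) (_ : D p R x = s) => g2 x) x hx)

lemma Z_le_const {p R : ℕ} {g : X → ℝ≥0∞} {c : ℝ≥0∞} (h : ∀ x, g x ≤ c) :
    Z p R g ≤ (p : ℝ≥0∞) ^ R * c := by
  unfold Z
  refine (sum_le_sum fun s _ => iSup₂_le fun x _ => h x).trans ?_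
  rw [sum_const, card_range, nsmul_eq_mul]
  push_cast
  exact le_rfl

/-- the two halves of a word -/
lemma split {p : ℕ} (hp : 2 ≤ p) {ℓ R s : ℕ} {x : X} (h : D p (ℓ + R) x = s) :
    D p ℓ x = s / p ^ R ∧ D p R ((p ^ ℓ : ℕ) • x) = s % p ^ R := by
  rw [D_add] at h
  have h1 := D_lt hp R ((p ^ ℓ : ℕ) • x)
  have h2 : 0 < p ^ R := by positivity
  rw [← h]
  constructor
  · rw [mul_comm, Nat.mul_add_div h2, Nat.div_eq_of_lt h1, add_zero]
  · rw [mul_comm, Nat.mul_add_mod, Nat.mod_eq_of_lt h1]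

lemma sum_words {p : ℕ} (ℓ R : ℕ) {F : ℕ → ℝ≥0∞} {G : ℕ × ℕ → ℝ≥0∞}
    (h : ∀ s, F s ≤ G (s / p ^ R, s % p ^ R)) (hp : 0 < p) :
    ∑ s ∈ range (p ^ (ℓ + R)), F s ≤ ∑ c ∈ range (p ^ ℓ) ×ˢ range (p ^ R), G c := by
  have h2 : 0 < p ^ R := by positivity
  have hinj : Set.InjOn (fun s => (s / p ^ R, s % p ^ R)) (range (p ^ (ℓ + R)) : Set ℕ) := by
    intro s _ t _ hst
    rw [Prod.mk.injEq] at hst
    rw [← Nat.div_add_mod s (p ^ R), ← Nat.div_add_mod t (p ^ R), hst.1, hst.2]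
  calc ∑ s ∈ range (p ^ (ℓ + R)), F s ≤ ∑ s ∈ range (p ^ (ℓ + R)), G (s / p ^ R, s % p ^ R) :=
        sum_le_sum fun s _ => h s
    _ = ∑ c ∈ (range (p ^ (ℓ + R))).image (fun s => (s / p ^ R, s % p ^ R)), G c :=
        (sum_image hinj).symm
    _ ≤ ∑ c ∈ range (p ^ ℓ) ×ˢ range (p ^ R), G c := by
        apply sum_le_sum_of_subset
        intro c hc
        obtain ⟨s, hs, rfl⟩ := mem_image.1 hc
        rw [mem_range, pow_add] at hs
        rw [mem_product, mem_range, mem_range]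
        exact ⟨Nat.div_lt_of_lt_mul (by rwa [mul_comm]), Nat.mod_lt _ h2⟩

lemma Z_mul {p : ℕ} (hp : 2 ≤ p) {ℓ R : ℕ} {g g1 g2 : X → ℝ≥0∞}
    (h : ∀ x, g x ≤ g1 x * g2 ((p ^ ℓ : ℕ) • x)) : Z p (ℓ + R) g ≤ Z p ℓ g1 * Z p R g2 := by
  unfold Z
  rw [sum_mul_sum, ← sum_product']
  apply sum_words ℓ R
    (G := fun c => (⨆ x : X, ⨆ _ : D p ℓ x = c.1, g1 x) * ⨆ x : X, ⨆ _ : D p R x = c.2, g2 x)
  · intro s
    refine iSup₂_le fun x hx => (h x).trans ?_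
    obtain ⟨h1, h2⟩ := split hp hx
    exact mul_le_mul' (le_iSup₂ (f := fun (x : X) (_ : D p ℓ x = s / p ^ R) => g1 x) x h1)
      (le_iSup₂ (f := fun (x : X) (_ : D p R x = s % p ^ R) => g2 x) _ h2)
  · omega

/-- the product weight along an orbit -/
noncomputable def W (p k : ℕ) (w : ℕ → ℝ) (R : ℕ) (x : X) : ℝ≥0∞ :=
  ∏ t ∈ range R, ENNReal.ofReal (w (D p (k + 1) ((p ^ t : ℕ) • x)))

lemma W_succ (p k : ℕ) (w : ℕ → ℝ) (R : ℕ) (x : X) :
    W p k w (R + 1) x = ENNReal.ofReal (w (D p (k + 1) x)) * W p k w R ((p ^ 1 : ℕ) • x) := by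
  unfold W
  rw [prod_range_succ', pow_zero, one_smul, mul_comm]
  congr 1
  apply prod_congr rfl
  intro t _
  rw [← mul_smul, ← pow_add]

/-- normalised weights: the sum over the first digit is at most one -/
def Norm (p k : ℕ) (w : ℕ → ℝ) : Prop :=
  (∀ s, 0 ≤ w s) ∧ ∀ s < p ^ k, ∑ d ∈ range p, w (d * p ^ k + s) ≤ 1

lemma A_le {p : ℕ} (hp : 2 ≤ p) {k : ℕ} {w : ℕ → ℝ} (hw : Norm p k w) (R : ℕ) :
    ∀ j < p ^ k, ∑ s ∈ range (p ^ R),
      (⨆ x : X, ⨆ _ : D p R x = s ∧ D p k ((p ^ R : ℕ) • x) = j, W p k w R x) ≤ 1 := by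
  have hp0 : 0 < p := by omega
  induction R with
  | zero =>
    intro j _
    rw [pow_zero, sum_range_one]
    refine iSup₂_le fun x _ => ?_
    unfold W
    simp
  | succ R ih =>
    intro j hj
    have hkey : ∀ y : X, ∀ s2, D p R y = s2 → D p k ((p ^ R : ℕ) • y) = j →
        D p k y = (s2 * p ^ k + j) / p ^ R := by
      intro y s2 h1 h2
      have h3 : D p (R + k) y = s2 * p ^ k + j := by rw [D_add, h1, h2]
      rw [add_comm] at h3
      exact (split hp h3).1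
    rw [add_comm R 1]
    have h1 : ∑ s ∈ range (p ^ (1 + R)),
        (⨆ x : X, ⨆ _ : D p (1 + R) x = s ∧ D p k ((p ^ (1 + R) : ℕ) • x) = j, W p k w (1 + R) x) ≤
        ∑ c ∈ range (p ^ 1) ×ˢ range (p ^ R),
          ENNReal.ofReal (w (c.1 * p ^ k + (c.2 * p ^ k + j) / p ^ R)) *
          (⨆ x : X, ⨆ _ : D p R x = c.2 ∧ D p k ((p ^ R : ℕ) • x) = j, W p k w R x) := by
      apply sum_words 1 R (G := fun c => ENNReal.ofReal (w (c.1 * p ^ k + (c.2 * p ^ k + j) / p ^ R)) *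
          (⨆ x : X, ⨆ _ : D p R x = c.2 ∧ D p k ((p ^ R : ℕ) • x) = j, W p k w R x))
      · intro s
        refine iSup₂_le fun x hx => ?_
        obtain ⟨hx1, hx2⟩ := hx
        obtain ⟨h2, h3⟩ := split hp hx1
        have h4 : D p k ((p ^ R : ℕ) • ((p ^ 1 : ℕ) • x)) = j := by
          rw [← mul_smul, ← pow_add, add_comm R 1]
          exact hx2
        have h5 := hkey _ _ h3 h4
        have h6 : D p (k + 1) x = s / p ^ R * p ^ k + (s % p ^ R * p ^ k + j) / p ^ R := by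
          rw [add_comm k 1, D_add, h2, h5]
        rw [add_comm 1 R, W_succ, h6]
        exact mul_le_mul' le_rfl (le_iSup₂
          (f := fun (x : X) (_ : D p R x = s % p ^ R ∧ D p k ((p ^ R : ℕ) • x) = j) => W p k w R x)
          _ ⟨h3, h4⟩)
      · exact hp0
    refine h1.trans ?_
    rw [sum_product_right]
    refine le_trans (sum_le_sum fun s2 hs2 => ?_) (ih j hj)
    simp only
    rw [← sum_mul]
    have hs2' := mem_range.1 hs2
    have hi : (s2 * p ^ k + j) / p ^ R < p ^ k := by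
      apply Nat.div_lt_of_lt_mul
      calc s2 * p ^ k + j < s2 * p ^ k + p ^ k := by omega
        _ = (s2 + 1) * p ^ k := by ring
        _ ≤ p ^ R * p ^ k := Nat.mul_le_mul_right _ hs2'
    have h2 : ∑ d ∈ range (p ^ 1), ENNReal.ofReal (w (d * p ^ k + (s2 * p ^ k + j) / p ^ R)) ≤ 1 := by
      rw [pow_one, ← ENNReal.ofReal_sum_of_nonneg (fun d _ => hw.1 _)]
      exact ENNReal.ofReal_le_one.2 (hw.2 _ hi)
    calc _ ≤ 1 * _ := mul_le_mul' h2 le_rfl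
      _ = _ := one_mul _

lemma Z_W {p : ℕ} (hp : 2 ≤ p) {k : ℕ} {w : ℕ → ℝ} (hw : Norm p k w) (R : ℕ) :
    Z p R (W p k w R) ≤ (p : ℝ≥0∞) ^ k := by
  have h1 : Z p R (W p k w R) ≤ ∑ j ∈ range (p ^ k), ∑ s ∈ range (p ^ R),
      (⨆ x : X, ⨆ _ : D p R x = s ∧ D p k ((p ^ R : ℕ) • x) = j, W p k w R x) := by
    unfold Z
    rw [sum_comm]
    refine sum_le_sum fun s _ => iSup₂_le fun x hx => ?_
    refine le_trans ?_ (single_le_sum (f := fun j =>
      (⨆ x : X, ⨆ _ : D p R x = s ∧ D p k ((p ^ R : ℕ) • x) = j, W p k w R x))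
      (fun _ _ => zero_le) (mem_range.2 (D_lt hp k ((p ^ R : ℕ) • x))))
    exact le_iSup₂ (f := fun (y : X) (_ : D p R y = s ∧
      D p k ((p ^ R : ℕ) • y) = D p k ((p ^ R : ℕ) • x)) => W p k w R y) x ⟨hx, rfl⟩
  refine h1.trans ((sum_le_sum fun j hj => A_le hp hw R j (mem_range.1 hj)).trans ?_)
  rw [sum_const, card_range, nsmul_eq_mul, mul_one]
  push_cast
  exact le_rfl

end Pool.Agent.TH463.UQ
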